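import Pool.Agent.HEP.Alph

/-!
Project PLY (MP_8c6f77_pr, honeycomb lattice, polynomial bound), the chain step: INTERFACE with the fold estimates.

* `rg i l`: weight of the words `l` which end at their FIRST renewal `> i` (total mass 1).
* `fa i`: mass of the pairs of such words which avoid each other.
* `sf σ i g m`: mass of the pairs (free leg `l` up to its first renewal `> i`; word `s` of class `g`, that is `Nat.size (h s) = g`,
  followed by ONE block `c` of height `≥ 2 ^ m`) which avoid each other, the block `c` included. `σ = true`: `l` is leg 1 (older leg).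
* `Ply K ρ`: the inputs of the chain step. `K`, `ρ` absolute, `ρ < 1`.

OUTPUT of the chain step (`Pool/Agent/PLY/Ch/Main.lean`): `chm n ≤ C (n + 1) ^ D`, `C`, `D` depend only on `K`, `ρ`.
-/

namespace Pool.Agent.HEP

open scoped ENNReal

/-- The word ends at its first renewal `> i`. -/
def Alph.FR (A : Alph) (i : ℕ) (l : List A.B) : Prop :=
  ∃ (P : List A.B) (c : A.B), P ++ [c] = l ∧ A.h P ≤ i ∧ i < A.h P + A.ht c

/-- Weight of the words which end at their first renewal `> i`. -/
noncomputable def Alph.rg (A : Alph) (i : ℕ) (l : List A.B) : ℝ≥0∞ := ind (A.FR i l) * A.w l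

namespace Sys

variable (S : Sys)

/-- Full avoidance up to the first renewals `> i`. -/
noncomputable def fa (i : ℕ) : ℝ≥0∞ := ∑' l, ∑' s, ind (S.Av l s) * (S.rg i l * S.rg i s)

/-- The strong fold: a free leg against a near part of class `g` with its giant block. -/
noncomputable def sf (σ : Bool) (i g m : ℕ) : ℝ≥0∞ :=
  ∑' l, ∑' s, ∑' c, ind (S.av σ l (s ++ [c]) ∧ Nat.size (S.h s) = g ∧ 2 ^ m ≤ S.ht c) *
    (S.rg i l * (S.w s * S.wt c))

/-- The inputs of the chain step. -/
structure Ply (K ρ : ℝ≥0∞) : Prop where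
  /-- `b` is nonincreasing -/
  anti : Antitone S.b
  /-- regularity -/
  reg : ∀ j k, j ≤ k → S.U (2 ^ j) ≤ K * ρ ^ (k - j) * S.U (2 ^ k)
  /-- full avoidance -/
  full : ∀ i, S.fa i * S.U i ≤ K
  /-- strong folds -/
  str : ∀ σ i g m, 2 ^ g ≤ i + 1 → i + 1 ≤ 2 ^ m → S.U i * S.sf σ i g m ≤ K * ρ ^ (m - g)

end Sys

end Pool.Agent.HEP
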