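import Pool.Agent.PLY.Ch.Bnd

/-!
Project PLY, chain step: MAIN THEOREM. The inputs `Ply K ρ` (`ρ < 1`) imply a polynomial bound for the mass of all the chains.
-/

namespace Pool.Agent.HEP

open scoped ENNReal
open Finset

namespace PC

open Ch Filter

theorem Ply_mono {S : Sys} {K K' ρ : ℝ≥0∞} (h : K ≤ K') (H : S.Ply K ρ) : S.Ply K' ρ where
  anti := H.anti
  reg := fun j k hjk => (H.reg j k hjk).trans (mul_le_mul' (mul_le_mul' h le_rfl) le_rfl)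
  full := fun i => (H.full i).trans h
  str := fun σ i g m h1 h2 => (H.str σ i g m h1 h2).trans (mul_le_mul' h le_rfl)

/-- Chains of strands of one height have at most one strand. -/
theorem CC_one (S : Sys) (t : ℕ) : CC S t (t + 1) ≤ 2 := by
  unfold CC
  rw [tsum_list]
  have h1 : ∑' W, ∑' c, ind (S.Chn (W :: c) ∧ HtIn S t (t + 1) (W :: c)) * ((W :: c).map S.w).prod ≤ 1 := by
    calc ∑' W, ∑' c, ind (S.Chn (W :: c) ∧ HtIn S t (t + 1) (W :: c)) * ((W :: c).map S.w).prod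
        ≤ ∑' W, ind (S.h W = t) * S.w W := by
          refine ENNReal.tsum_le_tsum fun W => ?_
          rw [tsum_eq_single ([] : List (List S.B))]
          · rw [List.map_cons, List.map_nil, List.prod_cons, List.prod_nil, mul_one]
            refine mul_le_mul' (ind_mono ?_) le_rfl
            rintro ⟨-, h⟩
            have := h W (by simp)
            omega
          · intro c hc
            rw [ind_false, zero_mul]
            rintro ⟨h2, h3⟩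
            obtain ⟨W', c', rfl⟩ := List.exists_cons_of_ne_nil hc
            have h4 := h2.1.1
            have h5 := h3 W (by simp)
            have h6 := h3 W' (by simp)
            omega
      _ = S.b t := rfl
      _ ≤ 1 := S.b_le_one t
  refine (add_le_add (mul_le_mul' (ind_le_one _) (le_refl _)) h1).trans ?_
  rw [List.map_nil, List.prod_nil, one_mul]
  norm_num

theorem CC_small (S : Sys) (m : ℕ) : CC S 1 (1 + m) ≤ 2 ^ m := by
  induction m with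
  | zero =>
    unfold CC
    rw [pow_zero]
    refine tsum_empty (Q := fun c => S.Chn c ∧ HtIn S 1 (1 + 0) c) fun W c h => ?_
    have := h.2 W (by simp)
    omega
  | succ m ih =>
    calc CC S 1 (1 + (m + 1)) ≤ CC S 1 (1 + m) * CC S (1 + m) (1 + (m + 1)) := CC_mul
      _ ≤ 2 ^ m * 2 := mul_le_mul' ih (CC_one S (1 + m))
      _ = 2 ^ (m + 1) := by ring

theorem chm_le_CC (S : Sys) (n : ℕ) : S.chm n ≤ CC S 1 (n + 1) := by
  unfold Sys.chm CC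
  refine ENNReal.tsum_le_tsum fun c => mul_le_mul' (ind_mono ?_) le_rfl
  rintro ⟨h1, h2⟩
  exact ⟨h1, fun W hW => ⟨(h2 W hW).1, Nat.lt_succ_of_le (h2 W hW).2⟩⟩

/-- The scales above `z`. -/
theorem big_le {S : Sys} {K ρ : ℝ≥0∞} (H : S.Ply K ρ) (hK : 1 ≤ K) (hρ : ρ ≤ 1) {z E : ℕ} (hz : 3 ≤ z)
    (hE : 4 * (8 * K ^ 2) * 2 ^ (z + 2) ≤ ((E + 1 : ℕ) : ℝ≥0∞)) (hκ : 60 * ((8 * K ^ 2) * kp ρ z) ≤ 1) {T : ℕ} (hT : 1 ≤ T) :
    CC S (2 ^ z) T ≤ (2 * K * S.U T) * (8 * (8 * K ^ 2) * (T : ℝ≥0∞) ^ (E + 1)) := by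
  have hC : (1 : ℝ≥0∞) ≤ 8 * K ^ 2 := by
    calc (1 : ℝ≥0∞) = 1 * 1 ^ 2 := by norm_num
      _ ≤ 8 * K ^ 2 := mul_le_mul' (by norm_num) (pow_le_pow_left' hK 2)
  have h2 : (1 : ℝ≥0∞) ≤ 2 * K * S.U T := by
    calc (1 : ℝ≥0∞) = 1 * 1 * 1 := by norm_num
      _ ≤ _ := mul_le_mul' (mul_le_mul' (by norm_num) hK) (S.one_le_U T)
  calc CC S (2 ^ z) T ≤ ∑' σ, ind (Adm z σ T) * Mt S z σ := CC_le_sum hz T
    _ ≤ ∑' σ, (2 * K * S.U T) * (ind (Adm z σ T) * EV S.toAlph ρ (8 * K ^ 2) z σ false false 0) := by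
        refine ENNReal.tsum_le_tsum fun σ => ?_
        by_cases h : Adm z σ T
        · rw [ind_true h, one_mul, one_mul]
          cases σ with
          | nil => simp only [Mt, EV, mul_one]; exact h2
          | cons x σ => exact Mt_EV H hK hρ (by omega) x σ T h
        · rw [ind_false h, zero_mul]; exact bot_le
    _ = (2 * K * S.U T) * ∑' σ, ind (Adm z σ T) * EV S.toAlph ρ (8 * K ^ 2) z σ false false 0 := ENNReal.tsum_mul_left
    _ ≤ _ := mul_le_mul' le_rfl (sum_all H.anti (by omega) hC hE hκ hT)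

/-- The class sum is small for large `z`. -/
theorem exists_z {ρ C : ℝ≥0∞} (hρ : ρ < 1) (hC : C ≠ ⊤) : ∃ z, 3 ≤ z ∧ 60 * (C * kp ρ z) ≤ 1 := by
  have h1 : sq ρ < 1 := by
    by_contra h
    push Not at h
    have h2 : (1 : ℝ≥0∞) ≤ ρ := by
      calc (1 : ℝ≥0∞) = 1 * 1 := (one_mul 1).symm
        _ ≤ sq ρ * sq ρ := mul_le_mul' h h
        _ = ρ := sq_mul_sq ρ
    exact absurd hρ (not_lt.2 h2)
  have h3 : (1 - sq ρ)⁻¹ ≠ ⊤ := by
    rw [Ne, ENNReal.inv_eq_top]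
    exact (tsub_pos_of_lt h1).ne'
  have h4 : Tendsto (fun n : ℕ => (60 * C * (1 - sq ρ)⁻¹) * sq ρ ^ n) atTop (nhds ((60 * C * (1 - sq ρ)⁻¹) * 0)) := by
    refine ENNReal.Tendsto.const_mul (ENNReal.tendsto_pow_atTop_nhds_zero_of_lt_one h1) (Or.inr ?_)
    exact ENNReal.mul_ne_top (ENNReal.mul_ne_top (by norm_num) hC) h3
  rw [mul_zero] at h4
  have h5 : ∀ᶠ n in atTop, (60 * C * (1 - sq ρ)⁻¹) * sq ρ ^ n < 1 := (tendsto_order.1 h4).2 1 zero_lt_one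
  obtain ⟨n, hn⟩ := h5.exists_forall_of_atTop
  refine ⟨n + 3, by omega, ?_⟩
  have h6 := (hn (n + 1) (by omega)).le
  unfold kp
  have e : n + 3 - 2 = n + 1 := by omega
  rw [e]
  calc _ = (60 * C * (1 - sq ρ)⁻¹) * sq ρ ^ (n + 1) := by ring
    _ ≤ 1 := h6

end PC

/-- **Main theorem of the chain step.** The inputs `Ply K ρ` with `K < ∞`, `ρ < 1` imply that the mass of all the chains of strands of
heights `1, ..., n` is at most `C (n + 1) ^ D`; `C` and `D` depend only on `K` and `ρ`. -/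
theorem ply_chm (K ρ : ℝ≥0∞) (hK : K ≠ ⊤) (hρ : ρ < 1) :
    ∃ (C : ℝ≥0∞) (D : ℕ), C ≠ ⊤ ∧ ∀ S : Sys, S.Ply K ρ → ∀ n : ℕ, S.chm n ≤ C * ((n : ℝ≥0∞) + 1) ^ D := by
  set K' := max K 1 with hK'
  have hK1 : 1 ≤ K' := le_max_right _ _
  have hKt : K' ≠ ⊤ := by
    rw [hK']
    exact (max_lt (lt_top_iff_ne_top.2 hK) ENNReal.one_lt_top).ne
  have hCt : 8 * K' ^ 2 ≠ ⊤ := ENNReal.mul_ne_top (by norm_num) (ENNReal.pow_ne_top hKt)
  obtain ⟨z, hz, hκ⟩ := PC.exists_z hρ hCt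
  obtain ⟨E, hE⟩ : ∃ E : ℕ, 4 * (8 * K' ^ 2) * 2 ^ (z + 2) ≤ ((E + 1 : ℕ) : ℝ≥0∞) := by
    obtain ⟨E, hE⟩ := ENNReal.exists_nat_gt (r := 4 * (8 * K' ^ 2) * 2 ^ (z + 2))
      (ENNReal.mul_ne_top (ENNReal.mul_ne_top (by norm_num) hCt) (by finiteness))
    exact ⟨E, hE.le.trans (by exact_mod_cast Nat.le_succ E)⟩
  refine ⟨2 ^ (2 ^ z) * ((2 * K' * 2) * (8 * (8 * K' ^ 2))), E + 2, ?_, ?_⟩
  · refine ENNReal.mul_ne_top (by finiteness) (ENNReal.mul_ne_top ?_ ?_)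
    · exact ENNReal.mul_ne_top (ENNReal.mul_ne_top (by norm_num) hKt) (by norm_num)
    · exact ENNReal.mul_ne_top (by norm_num) hCt
  · intro S H n
    have H' := PC.Ply_mono (le_max_left K 1) H
    have h1 := PC.big_le H' hK1 hρ.le hz hE hκ (T := n + 1) (by omega)
    have h2 : Ch.CC S 1 (2 ^ z) ≤ 2 ^ (2 ^ z) := by
      have hp : 0 < 2 ^ z := by positivity
      have e : 2 ^ z = 1 + (2 ^ z - 1) := by omega
      calc Ch.CC S 1 (2 ^ z) = Ch.CC S 1 (1 + (2 ^ z - 1)) := by rw [← e]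
        _ ≤ 2 ^ (2 ^ z - 1) := PC.CC_small S _
        _ ≤ 2 ^ (2 ^ z) := pow_le_pow_right' (by norm_num) (by omega)
    have h3 : S.U (n + 1) ≤ 2 * ((n : ℝ≥0∞) + 1) := by
      refine (S.U_le (n + 1)).trans ?_
      have : n + 1 + 1 ≤ 2 * (n + 1) := by omega
      exact_mod_cast this
    calc S.chm n ≤ Ch.CC S 1 (n + 1) := PC.chm_le_CC S n
      _ ≤ Ch.CC S 1 (2 ^ z) * Ch.CC S (2 ^ z) (n + 1) := Ch.CC_mul
      _ ≤ 2 ^ (2 ^ z) * ((2 * K' * (2 * ((n : ℝ≥0∞) + 1))) * (8 * (8 * K' ^ 2) * ((n : ℝ≥0∞) + 1) ^ (E + 1))) := by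
          refine mul_le_mul' h2 (h1.trans (mul_le_mul' (mul_le_mul' le_rfl h3) ?_))
          push_cast
          exact le_rfl
      _ = _ := by ring

/-- The same with a natural constant (contract `CCh` of `PLY/MainOf`). -/
theorem ply_chm_nat (K ρ : ℝ≥0∞) (hK : K ≠ ⊤) (hρ : ρ < 1) :
    ∃ C D : ℕ, ∀ S : Sys, S.Ply K ρ → ∀ n : ℕ, S.chm n ≤ (C : ℝ≥0∞) * ((n : ℝ≥0∞) + 1) ^ D := by
  obtain ⟨C, D, hC, h⟩ := ply_chm K ρ hK hρ
  obtain ⟨N, hN⟩ := ENNReal.exists_nat_gt hC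
  exact ⟨N, D, fun S hS n => (h S hS n).trans (mul_le_mul' hN.le le_rfl)⟩

end Pool.Agent.HEP
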