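import Pool.Agent.PLY.Ch.Sup

/-!
Project PLY, chain step: the induction for the sums over the skeletons (polynomial supersolution).
-/

namespace Pool.Agent.HEP

open scoped ENNReal
open Finset

namespace PC

open Ch

variable {A : Alph} {ρ C : ℝ≥0∞} {z : ℕ}

theorem uu_sq (k : ℕ) : uu A z k * uu A z k = (A.U (zn z k))⁻¹ := sq_mul_sq _

theorem uu_U (k : ℕ) : A.U (mw z k) * (uu A z k * uu A z k) ≤ 2 := by
  rw [uu_sq]
  have h : A.U (mw z k) ≤ 2 * A.U (zn z k) := U_pred A (k - z)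
  calc A.U (mw z k) * (A.U (zn z k))⁻¹ ≤ (2 * A.U (zn z k)) * (A.U (zn z k))⁻¹ := mul_le_mul' h le_rfl
    _ = 2 := by rw [mul_assoc, ENNReal.mul_inv_cancel (A.U_ne_zero _) (A.U_ne_top _), mul_one]

theorem uu_b (hb : Antitone A.b) {t k : ℕ} (ht : t < 2 ^ (k + 1)) (hk : z ≤ k) :
    (t : ℝ≥0∞) * (A.b (mw z k) * (uu A z k * uu A z k)) ≤ 2 ^ (z + 2) := by
  have h1 : (mw z k : ℝ≥0∞) * A.b (mw z k) ≤ A.U (mw z k) := by
    refine le_trans (mul_le_mul' ?_ le_rfl) (Alph.b_mul hb (mw z k))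
    exact le_self_add
  have h2 : (t : ℝ≥0∞) ≤ 2 ^ (z + 1) * (mw z k : ℝ≥0∞) := by
    have e : 2 ^ (k + 1) = 2 ^ (z + 1) * 2 ^ (k - z) := by rw [← pow_add]; congr 1; omega
    have : t ≤ 2 ^ (z + 1) * mw z k := by unfold mw; omega
    exact_mod_cast this
  calc (t : ℝ≥0∞) * (A.b (mw z k) * (uu A z k * uu A z k))
      ≤ (2 ^ (z + 1) * (mw z k : ℝ≥0∞)) * (A.b (mw z k) * (uu A z k * uu A z k)) := mul_le_mul' h2 le_rfl
    _ = 2 ^ (z + 1) * (((mw z k : ℝ≥0∞) * A.b (mw z k)) * (uu A z k * uu A z k)) := by ring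
    _ ≤ 2 ^ (z + 1) * (A.U (mw z k) * (uu A z k * uu A z k)) := mul_le_mul' le_rfl (mul_le_mul' h1 le_rfl)
    _ ≤ 2 ^ (z + 1) * 2 := mul_le_mul' le_rfl (uu_U k)
    _ = 2 ^ (z + 2) := by ring

/-- Growth of the sums behind an end of type I. -/
noncomputable def GG (A : Alph) (z T : ℕ) : ℝ≥0∞ := sq (A.U (zn z (Nat.log 2 (T - 1))))

theorem one_le_GG (T : ℕ) : 1 ≤ GG A z T := by
  rw [← sq_one]
  exact sq_mono (A.one_le_U _)

theorem zn_mono {k k' : ℕ} (h : k ≤ k') : zn z k ≤ zn z k' := by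
  unfold zn
  have := Nat.pow_le_pow_right (n := 2) (by norm_num) (show k - z ≤ k' - z by omega)
  omega

theorem uu_GG {T k : ℕ} (h : T ≤ 2 ^ (k + 1)) (hT : 1 ≤ T) : uu A z k * GG A z T ≤ 1 := by
  have h1 : Nat.log 2 (T - 1) ≤ k := by
    have : T - 1 < 2 ^ (k + 1) := by omega
    exact Nat.lt_succ_iff.1 (Nat.log_lt_of_lt_pow' (by omega) this)
  unfold uu GG
  rw [← sq_mul, ← sq_one]
  apply sq_mono
  calc (A.U (zn z k))⁻¹ * A.U (zn z (Nat.log 2 (T - 1))) ≤ (A.U (zn z k))⁻¹ * A.U (zn z k) :=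
        mul_le_mul' le_rfl (A.U_mono (zn_mono h1))
    _ = 1 := ENNReal.inv_mul_cancel (A.U_ne_zero _) (A.U_ne_top _)

theorem GG_uu {T k : ℕ} (h : 2 ^ k < T) : 1 ≤ GG A z T * uu A z k := by
  have h1 : k ≤ Nat.log 2 (T - 1) := by
    have h0 : T - 1 ≠ 0 := by
      have : 0 < 2 ^ k := by positivity
      omega
    exact Nat.le_log_of_pow_le (by norm_num) (by omega)
  unfold uu GG
  rw [← sq_mul, ← sq_one]
  apply sq_mono
  calc (1 : ℝ≥0∞) = A.U (zn z k) * (A.U (zn z k))⁻¹ := (ENNReal.mul_inv_cancel (A.U_ne_zero _) (A.U_ne_top _)).symm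
    _ ≤ _ := mul_le_mul' (A.U_mono (zn_mono h1)) le_rfl

theorem VX_false (hz : 2 ≤ z) (N T : ℕ) : VX A ρ C z false (N + 1) T ≤ 1 + kp ρ z * LS A ρ C z N T := by
  refine VX_succ A ρ C z N T false (kp ρ z) fun k hk _ => ?_
  calc ∑' b, ind (b ≤ k - z) * ss A ρ (zn z k) (k - 2) true false b
      = ∑' b, (ind (b ≤ k - z) * sq ρ ^ (k - 2 - b)) * uu A z k := by
        refine tsum_congr fun b => ?_
        rw [ss_tf]; unfold uu; ring
    _ ≤ _ := by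
        rw [ENNReal.tsum_mul_right]
        exact mul_le_mul' (sum_cls _ hz hk) le_rfl

theorem VX_true (hz : 2 ≤ z) (N T : ℕ) :
    VX A ρ C z true (N + 1) T ≤ 1 + (kp ρ z * GG A z T) * LS A ρ C z N T := by
  refine VX_succ A ρ C z N T true (kp ρ z * GG A z T) fun k hk hT => ?_
  calc ∑' b, ind (b ≤ k - z) * ss A ρ (zn z k) (k - 2) true true b
      = ∑' b, ind (b ≤ k - z) * sq ρ ^ (k - 2 - b) := by
        refine tsum_congr fun b => ?_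
        rw [ss_tt]
    _ ≤ kp ρ z * 1 := by rw [mul_one]; exact sum_cls _ hz hk
    _ ≤ kp ρ z * (GG A z T * uu A z k) := mul_le_mul' le_rfl (GG_uu hT)
    _ = _ := by ring

/-- The claim of the induction. -/
def IH (A : Alph) (ρ C : ℝ≥0∞) (z E N : ℕ) : Prop :=
  ∀ T, 1 ≤ T → VR A ρ C z N T ≤ 8 * C * (T : ℝ≥0∞) ^ (E + 1) ∧
    VX A ρ C z false N T ≤ 1 + kp ρ z * (8 * C * (T : ℝ≥0∞) ^ (E + 1)) ∧
    VX A ρ C z true N T ≤ GG A z T * (8 * C * (T : ℝ≥0∞) ^ (E + 1))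

theorem part_R (hb : Antitone A.b) {E N : ℕ} (hE : 4 * C * 2 ^ (z + 2) ≤ ((E + 1 : ℕ) : ℝ≥0∞)) (h : IH A ρ C z E N) (T : ℕ) :
    4 * (∑' k, ∑' t, ind (2 ^ k ≤ t ∧ t < 2 ^ (k + 1) ∧ t < T ∧ z ≤ k) *
      ((C * uu A z k) * (A.b (mw z k) * uu A z k) * VR A ρ C z N t)) ≤ 8 * C * (T : ℝ≥0∞) ^ (E + 1) := by
  have h1 : (∑' k, ∑' t, ind (2 ^ k ≤ t ∧ t < 2 ^ (k + 1) ∧ t < T ∧ z ≤ k) *
      ((C * uu A z k) * (A.b (mw z k) * uu A z k) * VR A ρ C z N t)) ≤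
      ∑' k : ℕ, ∑' t : ℕ, ind (2 ^ k ≤ t ∧ t < 2 ^ (k + 1) ∧ t < T) * (C * 2 ^ (z + 2) * (8 * C) * (t : ℝ≥0∞) ^ E) := by
    refine ENNReal.tsum_le_tsum fun k => ENNReal.tsum_le_tsum fun t => ?_
    by_cases hk : 2 ^ k ≤ t ∧ t < 2 ^ (k + 1) ∧ t < T ∧ z ≤ k
    · rw [ind_true hk, ind_true (p := 2 ^ k ≤ t ∧ t < 2 ^ (k + 1) ∧ t < T) ⟨hk.1, hk.2.1, hk.2.2.1⟩, one_mul, one_mul]
      have ht : 1 ≤ t := by
        have : 0 < 2 ^ k := by positivity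
        omega
      calc (C * uu A z k) * (A.b (mw z k) * uu A z k) * VR A ρ C z N t
          ≤ (C * uu A z k) * (A.b (mw z k) * uu A z k) * (8 * C * (t : ℝ≥0∞) ^ (E + 1)) :=
            mul_le_mul' le_rfl (h t ht).1
        _ = C * ((t : ℝ≥0∞) * (A.b (mw z k) * (uu A z k * uu A z k))) * (8 * C) * (t : ℝ≥0∞) ^ E := by ring
        _ ≤ C * 2 ^ (z + 2) * (8 * C) * (t : ℝ≥0∞) ^ E :=
            mul_le_mul' (mul_le_mul' (mul_le_mul' le_rfl (uu_b hb hk.2.1 hk.2.2.2)) le_rfl) le_rfl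
    · rw [ind_false hk, zero_mul]; exact bot_le
  have h2 := sum_heights T (fun t => C * 2 ^ (z + 2) * (8 * C) * (t : ℝ≥0∞) ^ E)
  calc _ ≤ 4 * ∑ t ∈ range T, C * 2 ^ (z + 2) * (8 * C) * (t : ℝ≥0∞) ^ E := mul_le_mul' le_rfl (h1.trans h2)
    _ = (4 * C * 2 ^ (z + 2)) * ((8 * C) * ∑ t ∈ range T, (t : ℝ≥0∞) ^ E) := by
        rw [← mul_sum]; ring
    _ ≤ ((E + 1 : ℕ) : ℝ≥0∞) * ((8 * C) * ∑ t ∈ range T, (t : ℝ≥0∞) ^ E) := mul_le_mul' hE le_rfl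
    _ = (8 * C) * (((E + 1 : ℕ) : ℝ≥0∞) * ∑ t ∈ range T, (t : ℝ≥0∞) ^ E) := by ring
    _ ≤ (8 * C) * (T : ℝ≥0∞) ^ (E + 1) := by
        refine mul_le_mul' le_rfl ?_
        exact_mod_cast sum_pow E T

theorem min_ge {T k : ℕ} (h : 2 ^ k < T) : 1 ≤ min T (2 ^ (k + 1)) := by
  have h1 : 0 < 2 ^ (k + 1) := by positivity
  have : 0 < 2 ^ k := by positivity
  omega

theorem part_N {E N : ℕ} (h : IH A ρ C z E N) {T : ℕ} (hT : 1 ≤ T) :
    (∑' k, ind (2 ^ k < T ∧ z ≤ k) *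
      ((C * uu A z k) * (A.U (mw z k) * uu A z k) * VX A ρ C z false N (min T (2 ^ (k + 1))))) ≤
      2 * C * T + 6 * (C * kp ρ z) * (8 * C * (T : ℝ≥0∞) ^ (E + 1)) := by
  calc _ ≤ ∑' k : ℕ, (2 * C * ind (2 ^ k < T) +
        2 * C * kp ρ z * (8 * C) * (ind (2 ^ k < T) * ((min T (2 ^ (k + 1)) : ℕ) : ℝ≥0∞) ^ (E + 1))) := by
        refine ENNReal.tsum_le_tsum fun k => ?_
        by_cases hk : 2 ^ k < T ∧ z ≤ k
        · rw [ind_true hk, ind_true hk.1, one_mul, mul_one, one_mul]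
          calc (C * uu A z k) * (A.U (mw z k) * uu A z k) * VX A ρ C z false N (min T (2 ^ (k + 1)))
              ≤ (C * uu A z k) * (A.U (mw z k) * uu A z k) *
                (1 + kp ρ z * (8 * C * ((min T (2 ^ (k + 1)) : ℕ) : ℝ≥0∞) ^ (E + 1))) :=
                mul_le_mul' le_rfl (h _ (min_ge hk.1)).2.1
            _ = C * (A.U (mw z k) * (uu A z k * uu A z k)) *
                (1 + kp ρ z * (8 * C * ((min T (2 ^ (k + 1)) : ℕ) : ℝ≥0∞) ^ (E + 1))) := by ring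
            _ ≤ C * 2 * (1 + kp ρ z * (8 * C * ((min T (2 ^ (k + 1)) : ℕ) : ℝ≥0∞) ^ (E + 1))) :=
                mul_le_mul' (mul_le_mul' le_rfl (uu_U k)) le_rfl
            _ = _ := by ring
        · rw [ind_false hk, zero_mul]; exact bot_le
    _ = 2 * C * (∑' k : ℕ, ind (2 ^ k < T)) + 2 * C * kp ρ z * (8 * C) *
        ∑' k : ℕ, ind (2 ^ k < T) * ((min T (2 ^ (k + 1)) : ℕ) : ℝ≥0∞) ^ (E + 1) := by
        rw [ENNReal.tsum_add, ENNReal.tsum_mul_left, ENNReal.tsum_mul_left]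
    _ ≤ 2 * C * T + 2 * C * kp ρ z * (8 * C) * (3 * (T : ℝ≥0∞) ^ (E + 1)) :=
        add_le_add (mul_le_mul' le_rfl (count_scales T)) (mul_le_mul' le_rfl (sum_scales (E + 1) T (by omega) hT))
    _ = _ := by ring

theorem part_M {E N : ℕ} (h : IH A ρ C z E N) {T : ℕ} (hT : 1 ≤ T) :
    (∑' k, ind (2 ^ k < T ∧ z ≤ k) *
      ((C * uu A z k) * (A.U (mw z k) * (kp ρ z * uu A z k)) * VR A ρ C z N (min T (2 ^ (k + 1))))) ≤
      6 * (C * kp ρ z) * (8 * C * (T : ℝ≥0∞) ^ (E + 1)) := by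
  calc _ ≤ ∑' k : ℕ, 2 * C * kp ρ z * (8 * C) * (ind (2 ^ k < T) * ((min T (2 ^ (k + 1)) : ℕ) : ℝ≥0∞) ^ (E + 1)) := by
        refine ENNReal.tsum_le_tsum fun k => ?_
        by_cases hk : 2 ^ k < T ∧ z ≤ k
        · rw [ind_true hk, ind_true hk.1, one_mul, one_mul]
          calc (C * uu A z k) * (A.U (mw z k) * (kp ρ z * uu A z k)) * VR A ρ C z N (min T (2 ^ (k + 1)))
              ≤ (C * uu A z k) * (A.U (mw z k) * (kp ρ z * uu A z k)) *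
                (8 * C * ((min T (2 ^ (k + 1)) : ℕ) : ℝ≥0∞) ^ (E + 1)) :=
                mul_le_mul' le_rfl (h _ (min_ge hk.1)).1
            _ = C * (A.U (mw z k) * (uu A z k * uu A z k)) *
                (kp ρ z * (8 * C * ((min T (2 ^ (k + 1)) : ℕ) : ℝ≥0∞) ^ (E + 1))) := by ring
            _ ≤ C * 2 * (kp ρ z * (8 * C * ((min T (2 ^ (k + 1)) : ℕ) : ℝ≥0∞) ^ (E + 1))) :=
                mul_le_mul' (mul_le_mul' le_rfl (uu_U k)) le_rfl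
            _ = _ := by ring
        · rw [ind_false hk, zero_mul]; exact bot_le
    _ = 2 * C * kp ρ z * (8 * C) *
        ∑' k : ℕ, ind (2 ^ k < T) * ((min T (2 ^ (k + 1)) : ℕ) : ℝ≥0∞) ^ (E + 1) := by
        rw [ENNReal.tsum_mul_left]
    _ ≤ 2 * C * kp ρ z * (8 * C) * (3 * (T : ℝ≥0∞) ^ (E + 1)) :=
        mul_le_mul' le_rfl (sum_scales (E + 1) T (by omega) hT)
    _ = _ := by ring

theorem part_I {E N : ℕ} (h : IH A ρ C z E N) {T : ℕ} (hT : 1 ≤ T) :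
    (∑' k, ind (2 ^ k < T ∧ z ≤ k) *
      ((C * uu A z k) * kp ρ z * VX A ρ C z true N (min T (2 ^ (k + 1))))) ≤
      3 * (C * kp ρ z) * (8 * C * (T : ℝ≥0∞) ^ (E + 1)) := by
  calc _ ≤ ∑' k : ℕ, C * kp ρ z * (8 * C) * (ind (2 ^ k < T) * ((min T (2 ^ (k + 1)) : ℕ) : ℝ≥0∞) ^ (E + 1)) := by
        refine ENNReal.tsum_le_tsum fun k => ?_
        by_cases hk : 2 ^ k < T ∧ z ≤ k
        · rw [ind_true hk, ind_true hk.1, one_mul, one_mul]
          calc (C * uu A z k) * kp ρ z * VX A ρ C z true N (min T (2 ^ (k + 1)))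
              ≤ (C * uu A z k) * kp ρ z *
                (GG A z (min T (2 ^ (k + 1))) * (8 * C * ((min T (2 ^ (k + 1)) : ℕ) : ℝ≥0∞) ^ (E + 1))) :=
                mul_le_mul' le_rfl (h _ (min_ge hk.1)).2.2
            _ = C * (uu A z k * GG A z (min T (2 ^ (k + 1)))) *
                (kp ρ z * (8 * C * ((min T (2 ^ (k + 1)) : ℕ) : ℝ≥0∞) ^ (E + 1))) := by ring
            _ ≤ C * 1 * (kp ρ z * (8 * C * ((min T (2 ^ (k + 1)) : ℕ) : ℝ≥0∞) ^ (E + 1))) :=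
                mul_le_mul' (mul_le_mul' le_rfl (uu_GG (min_le_right _ _) (min_ge hk.1))) le_rfl
            _ = _ := by ring
        · rw [ind_false hk, zero_mul]; exact bot_le
    _ = C * kp ρ z * (8 * C) *
        ∑' k : ℕ, ind (2 ^ k < T) * ((min T (2 ^ (k + 1)) : ℕ) : ℝ≥0∞) ^ (E + 1) := by
        rw [ENNReal.tsum_mul_left]
    _ ≤ C * kp ρ z * (8 * C) * (3 * (T : ℝ≥0∞) ^ (E + 1)) :=
        mul_le_mul' le_rfl (sum_scales (E + 1) T (by omega) hT)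
    _ = _ := by ring

theorem LS_bd (hb : Antitone A.b) (hz : 2 ≤ z) {E N : ℕ} (hE : 4 * C * 2 ^ (z + 2) ≤ ((E + 1 : ℕ) : ℝ≥0∞))
    (hκ : 60 * (C * kp ρ z) ≤ 1) (h : IH A ρ C z E N) {T : ℕ} (hT : 1 ≤ T) :
    4 * LS A ρ C z N T ≤ 3 * (8 * C * (T : ℝ≥0∞) ^ (E + 1)) := by
  have h1 := LS_le A ρ C z hz N T
  have h2 := part_R hb hE h T
  have h3 := part_N h hT
  have h4 := part_M h hT
  have h5 := part_I h hT
  have hTT : (T : ℝ≥0∞) ≤ (T : ℝ≥0∞) ^ (E + 1) := by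
    calc (T : ℝ≥0∞) = (T : ℝ≥0∞) ^ 1 := (pow_one _).symm
      _ ≤ _ := pow_le_pow_right' (by exact_mod_cast hT) (by omega)
  set B := 8 * C * (T : ℝ≥0∞) ^ (E + 1) with hB
  calc 4 * LS A ρ C z N T ≤ 4 * ((_ + _) + (_ + _)) := mul_le_mul' le_rfl h1
    _ ≤ 4 * ((_ + (2 * C * T + 6 * (C * kp ρ z) * B)) + (6 * (C * kp ρ z) * B + 3 * (C * kp ρ z) * B)) :=
        mul_le_mul' le_rfl (add_le_add (add_le_add le_rfl h3) (add_le_add h4 h5))
    _ = 4 * (∑' k, ∑' t, ind (2 ^ k ≤ t ∧ t < 2 ^ (k + 1) ∧ t < T ∧ z ≤ k) *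
      ((C * uu A z k) * (A.b (mw z k) * uu A z k) * VR A ρ C z N t)) + 8 * C * T + (60 * (C * kp ρ z)) * B := by ring
    _ ≤ B + B + 1 * B := by
        refine add_le_add (add_le_add h2 ?_) (mul_le_mul' hκ le_rfl)
        exact mul_le_mul' le_rfl hTT
    _ = 3 * B := by ring

theorem le_of_four {a b : ℝ≥0∞} (h : 4 * a ≤ 4 * b) : a ≤ b :=
  (ENNReal.mul_le_mul_iff_right (by norm_num) (by norm_num)).1 h

/-- **The induction.** -/
theorem ih_all (hb : Antitone A.b) (hz : 2 ≤ z) {E : ℕ} (hC : 1 ≤ C) (hE : 4 * C * 2 ^ (z + 2) ≤ ((E + 1 : ℕ) : ℝ≥0∞))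
    (hκ : 60 * (C * kp ρ z) ≤ 1) (N : ℕ) : IH A ρ C z E N := by
  have hk1 : kp ρ z ≤ 1 := by
    calc kp ρ z = 1 * (1 * kp ρ z) := by ring
      _ ≤ 60 * (C * kp ρ z) := mul_le_mul' (by norm_num) (mul_le_mul' hC le_rfl)
      _ ≤ 1 := hκ
  have hB : ∀ T : ℕ, 1 ≤ T → 8 ≤ 8 * C * (T : ℝ≥0∞) ^ (E + 1) := by
    intro T hT
    calc (8 : ℝ≥0∞) = 8 * 1 * 1 ^ (E + 1) := by ring
      _ ≤ _ := mul_le_mul' (mul_le_mul' le_rfl hC) (pow_le_pow_left' (by exact_mod_cast hT) _)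
  induction N with
  | zero =>
    intro T hT
    have h0 : VR A ρ C z 0 T ≤ 1 := by
      unfold VR
      rw [tsum_eq_single ([] : List Lt)]
      · calc _ ≤ 1 * 1 := mul_le_mul' (ind_le_one _) le_rfl
          _ = 1 := one_mul 1
      · intro σ hσ
        rw [ind_false (fun h => hσ (List.length_eq_zero_iff.1 (Nat.le_zero.1 h.2))), zero_mul]
    have h1 : ∀ g, VX A ρ C z g 0 T ≤ 1 := by
      intro g
      unfold VX
      rw [tsum_eq_single ([] : List Lt)]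
      · calc _ ≤ 1 * ∑' b : ℕ, ind (b = 0) := by
              refine mul_le_mul' (ind_le_one _) (ENNReal.tsum_le_tsum fun b => ?_)
              simp only [EV, mul_one, hd]
              exact ind_mono fun h => by omega
          _ = 1 := by rw [tsum_eq_single 0 (fun k hk => ind_false hk), ind_true rfl, one_mul]
      · intro σ hσ
        rw [ind_false (fun h => hσ (List.length_eq_zero_iff.1 (Nat.le_zero.1 h.2))), zero_mul]
    have h8 := hB T hT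
    have h8' : (1 : ℝ≥0∞) ≤ 8 * C * (T : ℝ≥0∞) ^ (E + 1) := le_trans (by norm_num) h8
    refine ⟨h0.trans h8', (h1 false).trans le_self_add, (h1 true).trans ?_⟩
    calc (1 : ℝ≥0∞) = 1 * 1 := (one_mul 1).symm
      _ ≤ _ := mul_le_mul' (one_le_GG T) h8'
  | succ N ih =>
    intro T hT
    have h1 := LS_bd hb hz hE hκ ih hT
    have h8 := hB T hT
    set B := 8 * C * (T : ℝ≥0∞) ^ (E + 1) with hBdef
    have h2 : 1 + LS A ρ C z N T ≤ B := by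
      apply le_of_four
      calc 4 * (1 + LS A ρ C z N T) = 4 + 4 * LS A ρ C z N T := by ring
        _ ≤ B + 3 * B := add_le_add (le_trans (by norm_num) h8) h1
        _ = 4 * B := by ring
    have h3 : LS A ρ C z N T ≤ B := le_trans le_add_self h2
    refine ⟨(VR_succ A ρ C z N T).trans h2, (VX_false hz N T).trans ?_, (VX_true hz N T).trans ?_⟩
    · exact add_le_add le_rfl (mul_le_mul' le_rfl h3)
    · calc 1 + (kp ρ z * GG A z T) * LS A ρ C z N T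
          ≤ GG A z T * 1 + (1 * GG A z T) * LS A ρ C z N T := by
            refine add_le_add ?_ (mul_le_mul' (mul_le_mul' hk1 le_rfl) le_rfl)
            rw [mul_one]; exact one_le_GG T
        _ = GG A z T * (1 + LS A ρ C z N T) := by ring
        _ ≤ _ := mul_le_mul' le_rfl h2

/-- **Sum over all the skeletons.** -/
theorem sum_all (hb : Antitone A.b) (hz : 2 ≤ z) {E : ℕ} (hC : 1 ≤ C) (hE : 4 * C * 2 ^ (z + 2) ≤ ((E + 1 : ℕ) : ℝ≥0∞))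
    (hκ : 60 * (C * kp ρ z) ≤ 1) {T : ℕ} (hT : 1 ≤ T) :
    ∑' σ, ind (Adm z σ T) * EV A ρ C z σ false false 0 ≤ 8 * C * (T : ℝ≥0∞) ^ (E + 1) := by
  rw [ENNReal.tsum_eq_iSup_sum]
  refine iSup_le fun s => ?_
  refine le_trans ?_ (ih_all hb hz hC hE hκ (s.sup List.length) T hT).1
  unfold VR
  refine le_trans (sum_le_sum fun σ hσ => ?_) (ENNReal.sum_le_tsum s)
  exact mul_le_mul' (ind_mono fun h => ⟨h, Finset.le_sup (f := List.length) hσ⟩) le_rfl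

end PC

end Pool.Agent.HEP
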