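import Pool.Agent.PLY.Ch.Skel

/-!
Project PLY, chain step: the fold bounds. Kinds of legs: `rg r` (regular), `wk r a` (near part of class `a`), `sg r m a` (near part of class `a`
with its giant). Everything follows from `full` and `str`; the longer near part is cut at its first renewal.
-/

namespace Pool.Agent.HEP

open scoped ENNReal
open Finset

namespace PC

open Ch

/-- The mirror system: the two legs exchanged. -/
def mir (S : Sys) : Sys where
  toAlph := S.toAlph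
  Av := fun l s => S.Av s l
  Av_pre := fun l l' s s' h => S.Av_pre s s' l l' h
  hi := S.hi
  lo := S.lo

theorem FF_mir (S : Sys) (φ ψ : List S.B → ℝ≥0∞) : FF (mir S) φ ψ = FF S ψ φ := by
  unfold FF
  rw [ENNReal.tsum_comm]
  refine tsum_congr fun s => tsum_congr fun l => ?_
  change ind (S.Av s l) * (φ l * ψ s) = ind (S.Av s l) * (ψ s * φ l)
  ring

theorem fa_eq (S : Sys) (N : ℕ) : S.fa N = FF S (S.rg N) (S.rg N) := rfl

theorem fa_mir (S : Sys) (N : ℕ) : (mir S).fa N = S.fa N := by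
  rw [fa_eq, fa_eq]
  exact FF_mir S (S.rg N) (S.rg N)

theorem sf_mir (S : Sys) (σ : Bool) (i g m : ℕ) : (mir S).sf σ i g m = S.sf (!σ) i g m := by
  cases σ <;> rfl

theorem Ply_mir {S : Sys} {K ρ : ℝ≥0∞} (h : S.Ply K ρ) : (mir S).Ply K ρ where
  anti := h.anti
  reg := h.reg
  full := fun m => by rw [fa_mir]; exact h.full m
  str := fun σ i g m h1 h2 => by rw [sf_mir]; exact h.str _ i g m h1 h2

theorem FF_mono {S : Sys} {φ φ' ψ ψ' : List S.B → ℝ≥0∞} (h : ∀ l, φ l ≤ φ' l) (h' : ∀ l, ψ l ≤ ψ' l) :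
    FF S φ ψ ≤ FF S φ' ψ' := by
  unfold FF
  exact ENNReal.tsum_le_tsum fun l => ENNReal.tsum_le_tsum fun s => mul_le_mul' le_rfl (mul_le_mul' (h l) (h' s))

/-- Without avoidance. -/
theorem FF_le_mul {S : Sys} (φ ψ : List S.B → ℝ≥0∞) : FF S φ ψ ≤ (∑' l, φ l) * ∑' s, ψ s := by
  unfold FF
  rw [← ENNReal.tsum_mul_right]
  refine ENNReal.tsum_le_tsum fun l => ?_
  rw [← ENNReal.tsum_mul_left]
  refine ENNReal.tsum_le_tsum fun s => ?_
  calc ind (S.Av l s) * (φ l * ψ s) ≤ 1 * (φ l * ψ s) := mul_le_mul' (ind_le_one _) le_rfl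
    _ = _ := one_mul _

/-- `φ` is dominated by `C φ'` on functions which do not increase if the word is extended. -/
def Dom {β : Type} (C : ℝ≥0∞) (φ φ' : List β → ℝ≥0∞) : Prop :=
  ∀ g : List β → ℝ≥0∞, PA g → ∑' l, φ l * g l ≤ C * ∑' l, φ' l * g l

theorem FF_left {S : Sys} {C : ℝ≥0∞} {φ φ' : List S.B → ℝ≥0∞} (h : Dom C φ φ') (ψ : List S.B → ℝ≥0∞) :
    FF S φ ψ ≤ C * FF S φ' ψ := by
  have e : ∀ φ : List S.B → ℝ≥0∞, FF S φ ψ = ∑' l, φ l * ∑' s, ind (S.Av l s) * ψ s := by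
    intro φ
    unfold FF
    refine tsum_congr fun l => ?_
    rw [← ENNReal.tsum_mul_left]
    refine tsum_congr fun s => ?_
    ring
  rw [e, e]
  refine h _ ?_
  intro l l'
  refine ENNReal.tsum_le_tsum fun s => mul_le_mul' (ind_mono fun h => ?_) le_rfl
  exact S.Av_pre l l' s [] (by rw [List.append_nil]; exact h)

theorem FF_right {S : Sys} {C : ℝ≥0∞} {ψ ψ' : List S.B → ℝ≥0∞} (φ : List S.B → ℝ≥0∞) (h : Dom C ψ ψ') :
    FF S φ ψ ≤ C * FF S φ ψ' := by
  have h1 := FF_left (S := mir S) h φ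
  rw [FF_mir, FF_mir] at h1
  exact h1

/-- Total mass of the regular words. -/
theorem tsum_rg (A : Alph) (i : ℕ) : ∑' l, A.rg i l ≤ 1 := by
  have h1 := tsum_exists (fun p : List A.B × A.B => p.1 ++ [p.2])
    (fun p => A.h p.1 ≤ i ∧ i < A.h p.1 + A.ht p.2) A.w
  refine le_trans (ENNReal.tsum_le_tsum fun l => ?_) (h1.trans ?_)
  · unfold Alph.rg
    refine mul_le_mul' (ind_mono ?_) le_rfl
    rintro ⟨P, c, h2, h3⟩
    exact ⟨(P, c), h2, h3⟩
  · rw [ENNReal.tsum_prod', ← A.tsum_w_Lam i]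
    refine ENNReal.tsum_le_tsum fun P => ?_
    by_cases hP : A.h P ≤ i
    · rw [ind_true hP, one_mul]
      unfold Alph.Lam
      rw [← ENNReal.tsum_mul_left]
      refine ENNReal.tsum_le_tsum fun c => ?_
      simp only
      rw [A.w_append, A.w_cons, A.w_nil, mul_one]
      rw [ind_congr (p := A.h P ≤ i ∧ i < A.h P + A.ht c) (q := i - A.h P < A.ht c) (by omega)]
      apply le_of_eq; ring
    · refine le_trans (le_of_eq (b := 0) ?_) bot_le
      rw [ENNReal.tsum_eq_zero]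
      intro c
      rw [ind_false (by tauto), zero_mul]

/-- General cut at the first renewal `> i`. -/
theorem cut_gen {A : Alph} (i : ℕ) (q : List A.B → Prop) (hq : ∀ l, q l → i < A.h l) (X : ℝ≥0∞)
    (hX : ∀ (P : List A.B) (c : A.B), A.h P ≤ i → i < A.h P + A.ht c → ∑' u, ind (q (P ++ c :: u)) * A.w u ≤ X) :
    Dom X (fun l => ind (q l) * A.w l) (A.rg i) := by
  intro g hg
  have h1 := tsum_exists (fun p : (List A.B × A.B) × List A.B => p.1.1 ++ p.1.2 :: p.2)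
    (fun p => (A.h p.1.1 ≤ i ∧ i < A.h p.1.1 + A.ht p.1.2) ∧ q (p.1.1 ++ p.1.2 :: p.2)) (fun l => A.w l * g l)
  calc ∑' l, ind (q l) * A.w l * g l
      ≤ ∑' l, ind (∃ p : (List A.B × A.B) × List A.B, p.1.1 ++ p.1.2 :: p.2 = l ∧
        (A.h p.1.1 ≤ i ∧ i < A.h p.1.1 + A.ht p.1.2) ∧ q (p.1.1 ++ p.1.2 :: p.2)) * (A.w l * g l) := by
        refine ENNReal.tsum_le_tsum fun l => ?_
        rw [mul_assoc]
        refine mul_le_mul' (ind_mono fun h => ?_) le_rfl
        obtain ⟨P, c, u, h2, h3, h4⟩ := cross (hq l h)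
        exact ⟨((P, c), u), h2, ⟨h3, h4⟩, by simp only; rw [h2]; exact h⟩
    _ ≤ _ := h1
    _ ≤ ∑' x : List A.B × A.B, (ind (A.h x.1 ≤ i ∧ i < A.h x.1 + A.ht x.2) * (A.w (x.1 ++ [x.2]) * g (x.1 ++ [x.2]))) * X := by
        rw [ENNReal.tsum_prod']
        refine ENNReal.tsum_le_tsum ?_
        rintro ⟨P, c⟩
        simp only
        by_cases h2 : A.h P ≤ i ∧ i < A.h P + A.ht c
        · rw [ind_true h2, one_mul]
          calc ∑' u, ind ((A.h P ≤ i ∧ i < A.h P + A.ht c) ∧ q (P ++ c :: u)) * (A.w (P ++ c :: u) * g (P ++ c :: u))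
              ≤ ∑' u, (A.w (P ++ [c]) * g (P ++ [c])) * (ind (q (P ++ c :: u)) * A.w u) := by
                refine ENNReal.tsum_le_tsum fun u => ?_
                have h5 : g (P ++ c :: u) ≤ g (P ++ [c]) := by
                  have e : P ++ c :: u = (P ++ [c]) ++ u := by simp
                  rw [e]; exact hg _ _
                calc _ ≤ ind (q (P ++ c :: u)) * (A.w (P ++ c :: u) * g (P ++ [c])) :=
                      mul_le_mul' (ind_mono fun h => h.2) (mul_le_mul' le_rfl h5)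
                  _ = _ := by simp only [A.w_append, A.w_cons, A.w_nil]; ring
            _ ≤ _ := by
                rw [ENNReal.tsum_mul_left]
                exact mul_le_mul' le_rfl (hX P c h2.1 h2.2)
        · refine le_trans (le_of_eq (b := 0) ?_) bot_le
          rw [ENNReal.tsum_eq_zero]
          intro u
          rw [ind_false (by tauto), zero_mul]
    _ = X * ∑' x : List A.B × A.B, ind (A.h x.1 ≤ i ∧ i < A.h x.1 + A.ht x.2) * (A.w (x.1 ++ [x.2]) * g (x.1 ++ [x.2])) := by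
        rw [ENNReal.tsum_mul_right, mul_comm]
    _ ≤ _ := mul_le_mul' le_rfl (tsum_snoc (fun P c => A.h P ≤ i ∧ i < A.h P + A.ht c) g)

/-- Words of bounded height. -/
theorem dom_le {A : Alph} {i N : ℕ} (φ : List A.B → ℝ≥0∞) (h : ∀ l, φ l ≤ ind (i < A.h l ∧ A.h l ≤ N) * A.w l) :
    Dom (A.U N) φ (A.rg i) := by
  intro g hg
  refine le_trans (ENNReal.tsum_le_tsum fun l => mul_le_mul' (h l) le_rfl)
    (cut_gen i (fun l => i < A.h l ∧ A.h l ≤ N) (fun l h => h.1) (A.U N) ?_ g hg)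
  intro P c _ _
  rw [← tsum_h_le A N]
  refine ENNReal.tsum_le_tsum fun u => mul_le_mul' (ind_mono fun h => ?_) le_rfl
  have := h.2
  rw [A.h_append, A.h_cons] at this
  omega

/-- Regular words cut at a smaller level. -/
theorem dom_rg {A : Alph} {i r : ℕ} (hir : i ≤ r) : Dom 1 (A.rg r) (A.rg i) := by
  refine cut_gen i (fun l => A.FR r l) ?_ 1 ?_
  · rintro l ⟨P, c, h1, h2, h3⟩
    rw [← h1, A.h_append, A.h_cons, A.h_nil]
    omega
  · intro P c h1 h2
    by_cases h3 : A.h P + A.ht c ≤ r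
    · refine le_trans (ENNReal.tsum_le_tsum fun u => ?_) (tsum_rg A (r - (A.h P + A.ht c)))
      unfold Alph.rg
      refine mul_le_mul' (ind_mono ?_) le_rfl
      rintro ⟨P', c', h4, h5, h6⟩
      -- the last letter of `u`
      have hu : u ≠ [] := by
        rintro rfl
        have h7 := List.append_inj' (s₂ := P) (t₁ := [c']) (t₂ := [c]) h4 rfl
        rw [h7.1] at h6
        have h8 : c' = c := by simpa using h7.2
        rw [h8] at h6
        omega
      obtain ⟨u', c'', rfl⟩ := (List.eq_nil_or_concat u).resolve_left hu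
      have h9 : P' ++ [c'] = (P ++ c :: u') ++ [c''] := by rw [h4]; simp
      have h10 := List.append_inj' h9 rfl
      have h11 : c' = c'' := by simpa using h10.2
      rw [h10.1, A.h_append, A.h_cons] at h5 h6
      rw [h11] at h6
      exact ⟨u', c'', by simp, by omega, by omega⟩
    · push Not at h3
      calc ∑' u, ind (A.FR r (P ++ c :: u)) * A.w u ≤ ∑' u : List A.B, ind (u = []) * A.w u := by
            refine ENNReal.tsum_le_tsum fun u => mul_le_mul' (ind_mono ?_) le_rfl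
            rintro ⟨P', c', h4, h5, h6⟩
            by_contra hu
            obtain ⟨u', c'', rfl⟩ := (List.eq_nil_or_concat u).resolve_left hu
            have h9 : P' ++ [c'] = (P ++ c :: u') ++ [c''] := by rw [h4]; simp
            have h10 := List.append_inj' h9 rfl
            rw [h10.1, A.h_append, A.h_cons] at h5
            omega
        _ = 1 := by
            rw [tsum_eq_single ([] : List A.B)]
            · rw [ind_true rfl, A.w_nil, one_mul]
            · intro u hu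
              rw [ind_false hu, zero_mul]

/-- A near part of class `a ≥ 1`. -/
theorem dom_wk {A : Alph} (r : ℕ) {a i : ℕ} (ha : i < 2 ^ (a - 1)) (ha1 : 1 ≤ a) : Dom (A.U (2 ^ a)) (wk A r a) (A.rg i) := by
  refine dom_le _ fun l => ?_
  unfold wk
  refine mul_le_mul' (ind_mono ?_) le_rfl
  rintro ⟨-, h⟩
  have h1 : A.h l < 2 ^ a := by rw [← h]; exact Nat.lt_size_self _
  have h2 : 2 ^ (a - 1) ≤ A.h l := by rw [← Nat.lt_size, h]; omega
  omega

/-- Mass of a near part of class `a`. -/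
theorem tsum_wk (A : Alph) (r a : ℕ) : ∑' l, wk A r a l ≤ A.U (2 ^ a) := by
  rw [← tsum_h_le A (2 ^ a)]
  refine ENNReal.tsum_le_tsum fun l => ?_
  unfold wk
  refine mul_le_mul' (ind_mono ?_) le_rfl
  rintro ⟨-, h⟩
  have h1 : A.h l < 2 ^ a := by rw [← h]; exact Nat.lt_size_self _
  omega

theorem tsum_wk_zero (A : Alph) (r : ℕ) : ∑' l, wk A r 0 l ≤ 1 := by
  calc ∑' l, wk A r 0 l ≤ ∑' l : List A.B, ind (l = []) * A.w l := by
        refine ENNReal.tsum_le_tsum fun l => ?_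
        unfold wk
        refine mul_le_mul' (ind_mono ?_) le_rfl
        rintro ⟨-, h⟩
        exact A.h_eq_zero.1 (Nat.size_eq_zero.1 h)
    _ = 1 := by
        rw [tsum_eq_single ([] : List A.B)]
        · rw [ind_true rfl, A.w_nil, one_mul]
        · intro u hu
          rw [ind_false hu, zero_mul]

/-- The giant block. -/
theorem FF_sg {S : Sys} (r m a : ℕ) (φ : List S.B → ℝ≥0∞) :
    FF S φ (sg S.toAlph r m a) ≤ ∑' l, ∑' s, ∑' c, ind (S.Av l (s ++ [c]) ∧ (S.h s ≤ r ∧ Nat.size (S.h s) = a) ∧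
      2 ^ m ≤ S.ht c) * (φ l * (S.w s * S.wt c)) := by
  unfold FF
  refine ENNReal.tsum_le_tsum fun l => ?_
  have h1 := tsum_exists (fun p : List S.B × S.B => p.1 ++ [p.2])
    (fun p => (S.h p.1 ≤ r ∧ Nat.size (S.h p.1) = a) ∧ 2 ^ m ≤ S.ht p.2)
    (fun W => S.w W * (ind (S.Av l W) * φ l))
  refine le_trans (ENNReal.tsum_le_tsum fun W => ?_) (h1.trans ?_)
  · simp only [sg]
    calc ind (S.Av l W) * (φ l * (ind (∃ (P : List S.B) (c : S.B), P ++ [c] = W ∧ (S.h P ≤ r ∧ Nat.size (S.h P) = a) ∧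
          2 ^ m ≤ S.ht c) * S.w W))
        ≤ ind (S.Av l W) * (φ l * (ind (∃ p : List S.B × S.B, p.1 ++ [p.2] = W ∧ (S.h p.1 ≤ r ∧ Nat.size (S.h p.1) = a) ∧
          2 ^ m ≤ S.ht p.2) * S.w W)) := by
          refine mul_le_mul' le_rfl (mul_le_mul' le_rfl (mul_le_mul' (ind_mono ?_) le_rfl))
          rintro ⟨P, c, h2⟩
          exact ⟨(P, c), h2⟩
      _ = _ := by ring
  · rw [ENNReal.tsum_prod']
    refine ENNReal.tsum_le_tsum fun s => ENNReal.tsum_le_tsum fun c => le_of_eq ?_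
    simp only
    rw [ind_and (S.Av l (s ++ [c])), S.w_append, S.w_cons, S.w_nil]
    ring

/-- The strong fold of a free leg. -/
theorem FF_sf {S : Sys} (i r m a : ℕ) : FF S (S.rg i) (sg S.toAlph r m a) ≤ S.sf true i a m := by
  refine (FF_sg r m a _).trans ?_
  unfold Sys.sf
  refine ENNReal.tsum_le_tsum fun l => ENNReal.tsum_le_tsum fun s => ENNReal.tsum_le_tsum fun c => ?_
  rw [Sys.av_true]
  refine mul_le_mul' (ind_mono fun h => ⟨h.1, h.2.1.2, h.2.2⟩) le_rfl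

/-- The giant block gives only its mass. -/
theorem FF_Lam {S : Sys} (r m a : ℕ) (φ : List S.B → ℝ≥0∞) :
    FF S φ (sg S.toAlph r m a) ≤ FF S φ (wk S.toAlph r a) * S.Lam (2 ^ m - 1) := by
  refine (FF_sg r m a _).trans ?_
  unfold FF
  rw [← ENNReal.tsum_mul_right]
  refine ENNReal.tsum_le_tsum fun l => ?_
  rw [← ENNReal.tsum_mul_right]
  refine ENNReal.tsum_le_tsum fun s => ?_
  unfold Alph.Lam
  rw [← ENNReal.tsum_mul_left]
  refine ENNReal.tsum_le_tsum fun c => ?_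
  simp only [wk]
  by_cases h : S.Av l (s ++ [c]) ∧ (S.h s ≤ r ∧ Nat.size (S.h s) = a) ∧ 2 ^ m ≤ S.ht c
  · have h1 : S.Av l s := by
      have := S.Av_pre l [] s [c] (by rw [List.append_nil]; exact h.1)
      exact this
    have hpos : 0 < 2 ^ m := by positivity
    rw [ind_true h, ind_true h1, ind_true h.2.1, ind_true (p := 2 ^ m - 1 < S.ht c) (by omega)]
    apply le_of_eq; ring
  · rw [ind_false h, zero_mul]; exact bot_le

theorem FF_Lam' {S : Sys} (r m b : ℕ) (ψ : List S.B → ℝ≥0∞) :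
    FF S (sg S.toAlph r m b) ψ ≤ FF S (wk S.toAlph r b) ψ * S.Lam (2 ^ m - 1) := by
  have h1 := FF_Lam (S := mir S) r m b ψ
  rw [FF_mir, FF_mir] at h1
  exact h1

variable {S : Sys} {K ρ : ℝ≥0∞}

/-- `U (2 ^ a) ≤ 4 U (2 ^ (a - 1) - 1)`. -/
theorem U_cls (A : Alph) (hb : Antitone A.b) {a : ℕ} (ha : 1 ≤ a) : A.U (2 ^ a) ≤ 4 * A.U (2 ^ (a - 1) - 1) := by
  have e1 : 2 ^ a = 2 * 2 ^ (a - 1) := by rw [← pow_succ']; congr 1; omega
  have hpos : 0 < 2 ^ (a - 1) := by positivity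
  have e2 : 2 ^ (a - 1) = (2 ^ (a - 1) - 1) + 1 := by omega
  calc A.U (2 ^ a) = A.U (2 * 2 ^ (a - 1)) := by rw [← e1]
    _ ≤ 2 * A.U (2 ^ (a - 1)) := A.U_two hb _
    _ = 2 * A.U ((2 ^ (a - 1) - 1) + 1) := by rw [← e2]
    _ ≤ 2 * (A.U (2 ^ (a - 1) - 1) + 1) := mul_le_mul' le_rfl (A.U_succ_le _)
    _ ≤ 2 * (A.U (2 ^ (a - 1) - 1) + A.U (2 ^ (a - 1) - 1)) := mul_le_mul' le_rfl (add_le_add le_rfl (A.one_le_U _))
    _ = _ := by ring

theorem U_pred (A : Alph) (m : ℕ) : A.U (2 ^ m) ≤ 2 * A.U (2 ^ m - 1) := by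
  have hpos : 0 < 2 ^ m := by positivity
  have e : 2 ^ m = (2 ^ m - 1) + 1 := by omega
  calc A.U (2 ^ m) = A.U ((2 ^ m - 1) + 1) := by rw [← e]
    _ ≤ A.U (2 ^ m - 1) + 1 := A.U_succ_le _
    _ ≤ A.U (2 ^ m - 1) + A.U (2 ^ m - 1) := add_le_add le_rfl (A.one_le_U _)
    _ = _ := by ring

theorem full_le (H : S.Ply K ρ) (i : ℕ) : S.fa i ≤ K * (S.U i)⁻¹ := by
  rw [← div_eq_mul_inv, ENNReal.le_div_iff_mul_le (Or.inl (S.U_ne_zero i)) (Or.inl (S.U_ne_top i))]
  exact H.full i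

theorem str_le (H : S.Ply K ρ) (σ : Bool) {i g m : ℕ} (h1 : 2 ^ g ≤ i + 1) (h2 : i + 1 ≤ 2 ^ m) :
    S.sf σ i g m ≤ K * ρ ^ (m - g) * (S.U i)⁻¹ := by
  rw [← div_eq_mul_inv, ENNReal.le_div_iff_mul_le (Or.inl (S.U_ne_zero i)) (Or.inl (S.U_ne_top i)), mul_comm]
  exact H.str σ i g m h1 h2

/-- regular / weak -/
theorem f_rw (H : S.Ply K ρ) (hK : 1 ≤ K) {r a : ℕ} (ha : 2 ^ a ≤ r + 1) :
    FF S (S.rg r) (wk S.toAlph r a) ≤ 4 * K := by
  rcases Nat.eq_zero_or_pos a with h0 | h0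
  · subst h0
    calc FF S (S.rg r) (wk S.toAlph r 0) ≤ (∑' l, S.rg r l) * ∑' s, wk S.toAlph r 0 s := FF_le_mul _ _
      _ ≤ 1 * 1 := mul_le_mul' (tsum_rg _ _) (tsum_wk_zero _ _)
      _ ≤ 4 * K := mul_le_mul' (by norm_num) hK
  · set i := 2 ^ (a - 1) - 1 with hi
    have hpos : 0 < 2 ^ (a - 1) := by positivity
    have e1 : 2 ^ a = 2 * 2 ^ (a - 1) := by rw [← pow_succ']; congr 1; omega
    calc FF S (S.rg r) (wk S.toAlph r a) ≤ 1 * FF S (S.rg i) (wk S.toAlph r a) := FF_left (dom_rg (by omega)) _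
      _ ≤ 1 * (S.U (2 ^ a) * FF S (S.rg i) (S.rg i)) :=
          mul_le_mul' le_rfl (FF_right _ (dom_wk r (by omega) h0))
      _ ≤ 1 * ((4 * S.U i) * (K * (S.U i)⁻¹)) :=
          mul_le_mul' le_rfl (mul_le_mul' (U_cls _ H.anti h0) (full_le H i))
      _ = 4 * K * (S.U i * (S.U i)⁻¹) := by ring
      _ = 4 * K := by rw [ENNReal.mul_inv_cancel (S.U_ne_zero i) (S.U_ne_top i), mul_one]

/-- weak / weak, the older near part is not larger -/
theorem f_ww (H : S.Ply K ρ) (hK : 1 ≤ K) {r a b : ℕ} (hba : b ≤ a) :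
    FF S (wk S.toAlph r b) (wk S.toAlph r a) ≤ 4 * K * S.U (2 ^ a) := by
  rcases Nat.eq_zero_or_pos b with h0 | h0
  · subst h0
    calc FF S (wk S.toAlph r 0) (wk S.toAlph r a) ≤ (∑' l, wk S.toAlph r 0 l) * ∑' s, wk S.toAlph r a s := FF_le_mul _ _
      _ ≤ 1 * S.U (2 ^ a) := mul_le_mul' (tsum_wk_zero _ _) (tsum_wk _ _ _)
      _ ≤ (4 * K) * S.U (2 ^ a) := by
          refine mul_le_mul' ?_ le_rfl
          calc (1 : ℝ≥0∞) = 1 * 1 := (one_mul _).symm
            _ ≤ 4 * K := mul_le_mul' (by norm_num) hK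
  · set i := 2 ^ (b - 1) - 1 with hi
    have hpos : 0 < 2 ^ (b - 1) := by positivity
    have hle : 2 ^ (b - 1) ≤ 2 ^ (a - 1) := Nat.pow_le_pow_right (by norm_num) (by omega)
    calc FF S (wk S.toAlph r b) (wk S.toAlph r a) ≤ S.U (2 ^ b) * FF S (S.rg i) (wk S.toAlph r a) :=
          FF_left (dom_wk r (by omega) h0) _
      _ ≤ S.U (2 ^ b) * (S.U (2 ^ a) * FF S (S.rg i) (S.rg i)) :=
          mul_le_mul' le_rfl (FF_right _ (dom_wk r (by omega) (by omega)))
      _ ≤ (4 * S.U i) * (S.U (2 ^ a) * (K * (S.U i)⁻¹)) :=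
          mul_le_mul' (U_cls _ H.anti h0) (mul_le_mul' le_rfl (full_le H i))
      _ = 4 * K * S.U (2 ^ a) * (S.U i * (S.U i)⁻¹) := by ring
      _ = 4 * K * S.U (2 ^ a) := by rw [ENNReal.mul_inv_cancel (S.U_ne_zero i) (S.U_ne_top i), mul_one]

/-- regular / strong -/
theorem f_rs (H : S.Ply K ρ) {r a m : ℕ} (ha : 2 ^ a ≤ r + 1) (hm : r + 1 ≤ 2 ^ m) :
    FF S (S.rg r) (sg S.toAlph r m a) ≤ K * (ρ ^ (m - a) * (S.U r)⁻¹) := by
  refine (FF_sf r r m a).trans ((str_le H true ha hm).trans (le_of_eq ?_))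
  ring

/-- weak / strong -/
theorem f_ws (H : S.Ply K ρ) (hK : 1 ≤ K) {r a b m : ℕ} (ha : 2 ^ a ≤ r + 1) (hb : 2 ^ b ≤ r + 1) (hm : r + 1 ≤ 2 ^ m) :
    FF S (wk S.toAlph r b) (sg S.toAlph r m a) ≤ 8 * K ^ 2 * ρ ^ (m - a) := by
  by_cases hab : a + 1 ≤ b
  · set i := 2 ^ (b - 1) - 1 with hi
    have hpos : 0 < 2 ^ (b - 1) := by positivity
    have hle : 2 ^ a ≤ 2 ^ (b - 1) := Nat.pow_le_pow_right (by norm_num) (by omega)
    have e1 : 2 ^ b = 2 * 2 ^ (b - 1) := by rw [← pow_succ']; congr 1; omega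
    calc FF S (wk S.toAlph r b) (sg S.toAlph r m a) ≤ S.U (2 ^ b) * FF S (S.rg i) (sg S.toAlph r m a) :=
          FF_left (dom_wk r (by omega) (by omega)) _
      _ ≤ S.U (2 ^ b) * S.sf true i a m := mul_le_mul' le_rfl (FF_sf i r m a)
      _ ≤ (4 * S.U i) * (K * ρ ^ (m - a) * (S.U i)⁻¹) :=
          mul_le_mul' (U_cls _ H.anti (by omega)) (str_le H true (by omega) (by omega))
      _ = 4 * K * ρ ^ (m - a) * (S.U i * (S.U i)⁻¹) := by ring
      _ = 4 * K * ρ ^ (m - a) := by rw [ENNReal.mul_inv_cancel (S.U_ne_zero i) (S.U_ne_top i), mul_one]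
      _ ≤ 8 * K ^ 2 * ρ ^ (m - a) := by
          refine mul_le_mul' (mul_le_mul' (by norm_num) ?_) le_rfl
          calc K = K * 1 := (mul_one K).symm
            _ ≤ K * K := mul_le_mul' le_rfl hK
            _ = K ^ 2 := by ring
  · have ham : a ≤ m := by
      have : 2 ^ a ≤ 2 ^ m := ha.trans hm
      exact (Nat.pow_le_pow_iff_right (by norm_num)).1 this
    calc FF S (wk S.toAlph r b) (sg S.toAlph r m a) ≤ FF S (wk S.toAlph r b) (wk S.toAlph r a) * S.Lam (2 ^ m - 1) :=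
          FF_Lam r m a _
      _ ≤ (4 * K * S.U (2 ^ a)) * S.Lam (2 ^ m - 1) := mul_le_mul' (f_ww H hK (by omega)) le_rfl
      _ ≤ (4 * K * (K * ρ ^ (m - a) * (2 * S.U (2 ^ m - 1)))) * S.Lam (2 ^ m - 1) :=
          mul_le_mul' (mul_le_mul' le_rfl ((H.reg a m ham).trans (mul_le_mul' le_rfl (U_pred _ m)))) le_rfl
      _ = 8 * K ^ 2 * ρ ^ (m - a) * (S.U (2 ^ m - 1) * S.Lam (2 ^ m - 1)) := by ring
      _ ≤ 8 * K ^ 2 * ρ ^ (m - a) * 1 := mul_le_mul' le_rfl (S.U_mul_Lam _)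
      _ = _ := mul_one _

theorem Lam_le_inv (A : Alph) {r m : ℕ} (hm : r + 1 ≤ 2 ^ m) : A.Lam (2 ^ m - 1) ≤ (A.U r)⁻¹ := by
  have h1 : A.U r * A.Lam (2 ^ m - 1) ≤ 1 := by
    calc A.U r * A.Lam (2 ^ m - 1) ≤ A.U (2 ^ m - 1) * A.Lam (2 ^ m - 1) := mul_le_mul' (A.U_mono (by omega)) le_rfl
      _ ≤ 1 := A.U_mul_Lam _
  calc A.Lam (2 ^ m - 1) = (A.U r)⁻¹ * (A.U r * A.Lam (2 ^ m - 1)) := by
        rw [← mul_assoc, ENNReal.inv_mul_cancel (A.U_ne_zero r) (A.U_ne_top r), one_mul]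
    _ ≤ (A.U r)⁻¹ * 1 := mul_le_mul' le_rfl h1
    _ = _ := mul_one _

/-- strong / strong, the younger giant is used -/
theorem f_ss (H : S.Ply K ρ) (hK : 1 ≤ K) {r a b m : ℕ} (ha : 2 ^ a ≤ r + 1) (hb : 2 ^ b ≤ r + 1) (hm : r + 1 ≤ 2 ^ m) :
    FF S (sg S.toAlph r m b) (sg S.toAlph r m a) ≤ 8 * K ^ 2 * (ρ ^ (m - a) * (S.U r)⁻¹) := by
  calc FF S (sg S.toAlph r m b) (sg S.toAlph r m a) ≤ FF S (wk S.toAlph r b) (sg S.toAlph r m a) * S.Lam (2 ^ m - 1) :=
        FF_Lam' r m b _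
    _ ≤ (8 * K ^ 2 * ρ ^ (m - a)) * (S.U r)⁻¹ := mul_le_mul' (f_ws H hK ha hb hm) (Lam_le_inv _ hm)
    _ = _ := by ring

theorem sg_mono (A : Alph) (r a : ℕ) {m m' : ℕ} (h : m ≤ m') (l : List A.B) : sg A r m' a l ≤ sg A r m a l := by
  unfold sg
  refine mul_le_mul' (ind_mono ?_) le_rfl
  rintro ⟨P, c, h1, h2, h3⟩
  exact ⟨P, c, h1, h2, (Nat.pow_le_pow_right (by norm_num) h).trans h3⟩

theorem WW_mono (A : Alph) (r : ℕ) {m m' : ℕ} (h : m ≤ m') (κ : Option (Bool × ℕ)) (l : List A.B) :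
    WW A r m' κ l ≤ WW A r m κ l := by
  cases κ with
  | none => exact le_rfl
  | some p =>
    obtain ⟨e, a⟩ := p
    cases e with
    | false => exact le_rfl
    | true => exact sg_mono A r a h l

/-- Squared weight of one side of a strand at a fold with zone `r` (`f`: this side is a giant, `g`: the other side too). -/
noncomputable def qq (A : Alph) (ρ : ℝ≥0∞) (r m : ℕ) (f g : Bool) (a : ℕ) : ℝ≥0∞ :=
  (if f then ρ ^ (m - a) else 1) * (if f && g then 1 else (A.U r)⁻¹)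

/-- **The fold bounds.** `x`: the older letter, `y`: the younger letter. -/
theorem fold_LR (H : S.Ply K ρ) (hK : 1 ≤ K) {r m m' : ℕ} (hm : r + 1 ≤ 2 ^ m) (hmm : m ≤ m')
    (x y : Lt) (hx : x.2.1 = true → 2 ^ x.2.2.2.2 ≤ r + 1) (hy : y.1 = true → 2 ^ y.2.2.2.1 ≤ r + 1) (hρ : ρ ≤ 1) :
    FF S (WW S.toAlph r m' (enK true x)) (WW S.toAlph r m (stK true y)) *
      FF S (WW S.toAlph r m' (enK false x)) (WW S.toAlph r m (stK false y)) ≤
      (8 * K ^ 2) ^ 2 * (qq S.toAlph ρ r m x.2.1 x.1 x.2.2.2.2 * qq S.toAlph ρ r m y.1 y.2.1 y.2.2.2.1) := by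
  obtain ⟨xf, xf', xk, xa, xb⟩ := x
  obtain ⟨yf, yf', yk, ya, yb⟩ := y
  simp only at hx hy ⊢
  have H' := Ply_mir H
  have hKK : K ≤ K ^ 2 := by
    calc K = K * 1 := (mul_one K).symm
      _ ≤ K * K := mul_le_mul' le_rfl hK
      _ = K ^ 2 := by ring
  have c4 : 4 * K ≤ 8 * K ^ 2 := mul_le_mul' (by norm_num) hKK
  have c1 : K ≤ 8 * K ^ 2 := by
    calc K = 1 * K := (one_mul K).symm
      _ ≤ 8 * K ^ 2 := mul_le_mul' (by norm_num) hKK
  set C := 8 * K ^ 2 with hC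
  have hmono : ∀ κ ψ, FF S (WW S.toAlph r m' κ) ψ ≤ FF S (WW S.toAlph r m κ) ψ := fun κ ψ =>
    FF_mono (fun l => WW_mono S.toAlph r hmm κ l) fun _ => le_rfl
  -- the individual bounds
  have rr : FF S (S.rg r) (S.rg r) ≤ C * (S.U r)⁻¹ := (full_le H r).trans (mul_le_mul' c1 le_rfl)
  have rw' : ∀ a, 2 ^ a ≤ r + 1 → FF S (S.rg r) (wk S.toAlph r a) ≤ C := fun a ha => (f_rw H hK ha).trans c4
  have wr : ∀ b, 2 ^ b ≤ r + 1 → FF S (wk S.toAlph r b) (S.rg r) ≤ C := fun b hb => by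
    have h1 := f_rw H' hK hb
    rw [FF_mir] at h1
    exact h1.trans c4
  have rs : ∀ a, 2 ^ a ≤ r + 1 → FF S (S.rg r) (sg S.toAlph r m a) ≤ C * (ρ ^ (m - a) * (S.U r)⁻¹) := fun a ha =>
    (f_rs H ha hm).trans (mul_le_mul' c1 le_rfl)
  have sr : ∀ b, 2 ^ b ≤ r + 1 → FF S (sg S.toAlph r m b) (S.rg r) ≤ C * (ρ ^ (m - b) * (S.U r)⁻¹) := fun b hb => by
    have h1 := f_rs H' hb hm
    rw [FF_mir] at h1
    exact h1.trans (mul_le_mul' c1 le_rfl)
  have ws : ∀ a b, 2 ^ a ≤ r + 1 → 2 ^ b ≤ r + 1 → FF S (wk S.toAlph r b) (sg S.toAlph r m a) ≤ C * ρ ^ (m - a) :=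
    fun a b ha hb => f_ws H hK ha hb hm
  have sw : ∀ a b, 2 ^ a ≤ r + 1 → 2 ^ b ≤ r + 1 → FF S (sg S.toAlph r m b) (wk S.toAlph r a) ≤ C * ρ ^ (m - b) :=
    fun a b ha hb => by
      have h1 := f_ws H' hK hb ha hm
      rw [FF_mir] at h1
      exact h1
  have ss : ∀ a b, 2 ^ a ≤ r + 1 → 2 ^ b ≤ r + 1 → FF S (sg S.toAlph r m b) (sg S.toAlph r m a) ≤
      C * (ρ ^ (m - a) * (S.U r)⁻¹) := fun a b ha hb => f_ss H hK ha hb hm
  have ss' : ∀ a b, 2 ^ a ≤ r + 1 → 2 ^ b ≤ r + 1 → FF S (sg S.toAlph r m b) (sg S.toAlph r m a) ≤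
      C * (ρ ^ (m - b) * (S.U r)⁻¹) := fun a b ha hb => by
    have h1 := f_ss H' hK hb ha hm
    rw [FF_mir] at h1
    exact h1
  have p1 : ∀ j, ρ ^ j ≤ 1 := fun j => pow_le_one' hρ j
  refine le_trans (mul_le_mul' (hmono _ _) (hmono _ _)) ?_
  cases xf' with
  | false =>
    cases yf with
    | false =>
      -- reg / reg
      simp only [enK, stK, WW, qq, Bool.false_eq_true, if_false, Bool.false_and, one_mul]
      calc _ ≤ (C * (S.U r)⁻¹) * (C * (S.U r)⁻¹) := mul_le_mul' rr rr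
        _ = _ := by ring
    | true =>
      have hya := hy rfl
      cases yf' with
      | false =>
        -- reg / M1
        simp only [enK, stK, WW, qq, Bool.false_eq_true, if_false, if_true, Bool.false_and, Bool.and_false, one_mul,
          Bool.not_false, Bool.or_true]
        calc _ ≤ (C * (ρ ^ (m - ya) * (S.U r)⁻¹)) * (C * (1 * (S.U r)⁻¹)) :=
              mul_le_mul' (rs _ hya) ((rs _ hya).trans (mul_le_mul' le_rfl (mul_le_mul' (p1 _) le_rfl)))
          _ = _ := by ring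
      | true =>
        -- reg / I
        simp only [enK, stK, WW, qq, Bool.false_eq_true, if_false, if_true, Bool.false_and, Bool.and_true, one_mul,
          Bool.not_true, Bool.or_false, mul_one]
        calc _ ≤ (C * (ρ ^ (m - ya) * (S.U r)⁻¹)) * C := mul_le_mul' (rs _ hya) (rw' _ hya)
          _ = _ := by ring
  | true =>
    have hxb := hx rfl
    cases xf with
    | false =>
      cases yf with
      | false =>
        -- M2 / reg
        simp only [enK, stK, WW, qq, Bool.false_eq_true, if_false, if_true, Bool.false_and, Bool.and_false, one_mul,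
          Bool.not_false, Bool.or_true]
        calc _ ≤ (C * (ρ ^ (m - xb) * (S.U r)⁻¹)) * (C * (1 * (S.U r)⁻¹)) :=
              mul_le_mul' (sr _ hxb) ((sr _ hxb).trans (mul_le_mul' le_rfl (mul_le_mul' (p1 _) le_rfl)))
          _ = _ := by ring
      | true =>
        have hya := hy rfl
        cases yf' with
        | false =>
          -- M2 / M1
          simp only [enK, stK, WW, qq, Bool.false_eq_true, if_false, if_true, Bool.and_false,
            Bool.not_false, Bool.or_true]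
          calc _ ≤ (C * (ρ ^ (m - ya) * (S.U r)⁻¹)) * (C * (ρ ^ (m - xb) * (S.U r)⁻¹)) :=
                mul_le_mul' (ss _ _ hya hxb) (ss' _ _ hya hxb)
            _ = _ := by ring
        | true =>
          -- M2 / I
          simp only [enK, stK, WW, qq, Bool.false_eq_true, if_false, if_true, Bool.and_false, Bool.and_true,
            Bool.not_false, Bool.not_true, Bool.or_true, Bool.or_false, mul_one]
          calc _ ≤ (C * (ρ ^ (m - ya) * (S.U r)⁻¹)) * (C * ρ ^ (m - xb)) :=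
                mul_le_mul' (ss _ _ hya hxb) (sw _ _ hya hxb)
            _ = _ := by ring
    | true =>
      cases yf with
      | false =>
        -- I / reg
        simp only [enK, stK, WW, qq, Bool.false_eq_true, if_false, if_true, Bool.false_and, Bool.and_true, one_mul,
          Bool.not_true, Bool.not_false, Bool.or_false, mul_one]
        calc _ ≤ C * (C * (ρ ^ (m - xb) * (S.U r)⁻¹)) := mul_le_mul' (wr _ hxb) (sr _ hxb)
          _ = _ := by ring
      | true =>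
        have hya := hy rfl
        cases yf' with
        | false =>
          -- I / M1
          simp only [enK, stK, WW, qq, Bool.false_eq_true, if_false, if_true, Bool.and_false, Bool.and_true,
            Bool.not_false, Bool.not_true, Bool.or_true, Bool.or_false, mul_one]
          calc _ ≤ (C * ρ ^ (m - ya)) * (C * (ρ ^ (m - xb) * (S.U r)⁻¹)) :=
                mul_le_mul' (ws _ _ hya hxb) (ss' _ _ hya hxb)
            _ = _ := by ring
        | true =>
          -- I / I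
          simp only [enK, stK, WW, qq, if_true, Bool.and_true,
            Bool.not_false, Bool.not_true, Bool.or_false, mul_one]
          calc _ ≤ (C * ρ ^ (m - ya)) * (C * ρ ^ (m - xb)) :=
                mul_le_mul' (ws _ _ hya hxb) (sw _ _ hya hxb)
            _ = _ := by ring

end PC

end Pool.Agent.HEP
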