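import Pool.Agent.PLY.Ch.Val

/-!
Project PLY, chain step: elementary sums.
-/

namespace Pool.Agent.HEP

open scoped ENNReal
open Finset

namespace PC

open Ch

theorem bern (T E : ℕ) : T ^ (E + 1) + (E + 1) * T ^ E ≤ (T + 1) ^ (E + 1) := by
  induction E with
  | zero => simp
  | succ E ih =>
    calc T ^ (E + 1 + 1) + (E + 1 + 1) * T ^ (E + 1)
        ≤ (T + 1) * (T ^ (E + 1) + (E + 1) * T ^ E) := by
          have h : (T + 1) * (T ^ (E + 1) + (E + 1) * T ^ E) =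
              T ^ (E + 1 + 1) + (E + 1 + 1) * T ^ (E + 1) + (E + 1) * T ^ E := by ring
          omega
      _ ≤ (T + 1) * (T + 1) ^ (E + 1) := Nat.mul_le_mul_left _ ih
      _ = (T + 1) ^ (E + 1 + 1) := by ring

/-- `(E + 1) ∑_(t < T) t ^ E ≤ T ^ (E + 1)`. -/
theorem sum_pow (E T : ℕ) : (E + 1) * ∑ t ∈ range T, t ^ E ≤ T ^ (E + 1) := by
  induction T with
  | zero => simp
  | succ T ih =>
    rw [sum_range_succ, mul_add]
    have := bern T E
    omega

theorem geo_sum (x : ℕ) (hx : 2 ≤ x) (n : ℕ) : ∑ j ∈ range n, x ^ (j + 1) ≤ 2 * x ^ n := by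
  induction n with
  | zero => simp
  | succ n ih =>
    rw [sum_range_succ]
    have h : 2 * x ^ n ≤ x ^ (n + 1) := by
      rw [pow_succ, mul_comm (x ^ n)]; exact Nat.mul_le_mul_right _ hx
    omega

/-- Sum over the scales. -/
theorem sum_scales (D T : ℕ) (hD : 1 ≤ D) (hT : 1 ≤ T) :
    ∑' k : ℕ, ind (2 ^ k < T) * ((min T (2 ^ (k + 1)) : ℕ) : ℝ≥0∞) ^ D ≤ 3 * (T : ℝ≥0∞) ^ D := by
  by_cases h1 : T = 1
  · subst h1
    refine le_trans (le_of_eq (b := 0) ?_) bot_le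
    rw [ENNReal.tsum_eq_zero]
    intro k
    have : 0 < 2 ^ k := by positivity
    rw [ind_false (by omega), zero_mul]
  set n := Nat.log 2 (T - 1) with hn
  have hn1 : 2 ^ n ≤ T - 1 := Nat.pow_log_le_self 2 (by omega)
  have hn2 : T - 1 < 2 ^ (n + 1) := Nat.lt_pow_succ_log_self (by norm_num) _
  have e1 : ∑' k : ℕ, ind (2 ^ k < T) * ((min T (2 ^ (k + 1)) : ℕ) : ℝ≥0∞) ^ D =
      ∑ k ∈ range (n + 1), ind (2 ^ k < T) * ((min T (2 ^ (k + 1)) : ℕ) : ℝ≥0∞) ^ D := by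
    rw [tsum_eq_sum]
    intro k hk
    rw [mem_range, not_lt] at hk
    have h2 : 2 ^ (n + 1) ≤ 2 ^ k := Nat.pow_le_pow_right (by norm_num) hk
    rw [ind_false (by omega), zero_mul]
  rw [e1, sum_range_succ]
  have h3 : ∑ k ∈ range n, ind (2 ^ k < T) * ((min T (2 ^ (k + 1)) : ℕ) : ℝ≥0∞) ^ D ≤ 2 * (T : ℝ≥0∞) ^ D := by
    calc ∑ k ∈ range n, ind (2 ^ k < T) * ((min T (2 ^ (k + 1)) : ℕ) : ℝ≥0∞) ^ D
        ≤ ∑ k ∈ range n, (((2 ^ D) ^ (k + 1) : ℕ) : ℝ≥0∞) := by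
          refine sum_le_sum fun k _ => ?_
          calc ind (2 ^ k < T) * ((min T (2 ^ (k + 1)) : ℕ) : ℝ≥0∞) ^ D
              ≤ 1 * ((2 ^ (k + 1) : ℕ) : ℝ≥0∞) ^ D := by
                refine mul_le_mul' (ind_le_one _) (pow_le_pow_left' ?_ D)
                exact_mod_cast min_le_right _ _
            _ = (((2 ^ D) ^ (k + 1) : ℕ) : ℝ≥0∞) := by
                rw [one_mul]
                push_cast
                rw [← pow_mul, ← pow_mul, mul_comm]
      _ = ((∑ k ∈ range n, (2 ^ D) ^ (k + 1) : ℕ) : ℝ≥0∞) := by push_cast; rfl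
      _ ≤ ((2 * (2 ^ D) ^ n : ℕ) : ℝ≥0∞) := by
          exact_mod_cast geo_sum (2 ^ D) (by
            calc 2 = 2 ^ 1 := by norm_num
              _ ≤ 2 ^ D := Nat.pow_le_pow_right (by norm_num) hD) n
      _ = 2 * ((2 ^ n : ℕ) : ℝ≥0∞) ^ D := by
          push_cast
          rw [← pow_mul, ← pow_mul, mul_comm D n]
      _ ≤ 2 * (T : ℝ≥0∞) ^ D := by
          refine mul_le_mul' le_rfl (pow_le_pow_left' ?_ D)
          exact_mod_cast (by omega : 2 ^ n ≤ T)
  have h4 : ind (2 ^ n < T) * ((min T (2 ^ (n + 1)) : ℕ) : ℝ≥0∞) ^ D ≤ (T : ℝ≥0∞) ^ D := by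
    calc ind (2 ^ n < T) * ((min T (2 ^ (n + 1)) : ℕ) : ℝ≥0∞) ^ D ≤ 1 * (T : ℝ≥0∞) ^ D := by
          refine mul_le_mul' (ind_le_one _) (pow_le_pow_left' ?_ D)
          exact_mod_cast min_le_left _ _
      _ = _ := one_mul _
  calc _ ≤ 2 * (T : ℝ≥0∞) ^ D + (T : ℝ≥0∞) ^ D := add_le_add h3 h4
    _ = _ := by ring

theorem count_scales (T : ℕ) : ∑' k : ℕ, ind (2 ^ k < T) ≤ (T : ℝ≥0∞) := by
  calc ∑' k : ℕ, ind (2 ^ k < T) ≤ ∑' k : ℕ, ind (k < T) :=
        ENNReal.tsum_le_tsum fun k => ind_mono fun h => lt_trans Nat.lt_two_pow_self h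
    _ = ∑ k ∈ range T, ind (k < T) := by
        rw [tsum_eq_sum]
        intro k hk
        rw [mem_range] at hk
        exact ind_false hk
    _ ≤ ∑ k ∈ range T, 1 := sum_le_sum fun k _ => ind_le_one _
    _ = _ := by simp

/-- Each height has one scale. -/
theorem sum_heights (T : ℕ) (F : ℕ → ℝ≥0∞) :
    ∑' k : ℕ, ∑' t : ℕ, ind (2 ^ k ≤ t ∧ t < 2 ^ (k + 1) ∧ t < T) * F t ≤ ∑ t ∈ range T, F t := by
  rw [ENNReal.tsum_comm]
  calc ∑' t : ℕ, ∑' k : ℕ, ind (2 ^ k ≤ t ∧ t < 2 ^ (k + 1) ∧ t < T) * F t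
      ≤ ∑' t : ℕ, ind (t < T) * F t := by
        refine ENNReal.tsum_le_tsum fun t => ?_
        calc ∑' k : ℕ, ind (2 ^ k ≤ t ∧ t < 2 ^ (k + 1) ∧ t < T) * F t
            ≤ ∑' k : ℕ, ind (k = Nat.log 2 t) * (ind (t < T) * F t) := by
              refine ENNReal.tsum_le_tsum fun k => ?_
              by_cases h : 2 ^ k ≤ t ∧ t < 2 ^ (k + 1) ∧ t < T
              · have h0 : 0 < 2 ^ k := by positivity
                have h1 : Nat.log 2 t = k := by
                  rw [Nat.log_eq_iff (Or.inr ⟨by norm_num, by omega⟩)]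
                  exact ⟨h.1, h.2.1⟩
                rw [ind_true h, ind_true h1.symm, ind_true h.2.2, one_mul, one_mul]
              · rw [ind_false h, zero_mul]; exact bot_le
          _ = (∑' k : ℕ, ind (k = Nat.log 2 t)) * (ind (t < T) * F t) := ENNReal.tsum_mul_right
          _ = ind (t < T) * F t := by
              rw [tsum_eq_single (Nat.log 2 t) (fun k hk => ind_false hk), ind_true rfl, one_mul]
    _ = ∑ t ∈ range T, ind (t < T) * F t := by
        rw [tsum_eq_sum]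
        intro t ht
        rw [mem_range] at ht
        rw [ind_false ht, zero_mul]
    _ ≤ ∑ t ∈ range T, F t := sum_le_sum fun t _ => by
        calc ind (t < T) * F t ≤ 1 * F t := mul_le_mul' (ind_le_one _) le_rfl
          _ = _ := one_mul _

/-- Sum over the classes. -/
theorem sum_cls (l : ℝ≥0∞) {z k : ℕ} (hz : 2 ≤ z) (hk : z ≤ k) :
    ∑' a : ℕ, ind (a ≤ k - z) * l ^ (k - 2 - a) ≤ l ^ (z - 2) * (1 - l)⁻¹ := by
  have e1 : ∑' a : ℕ, ind (a ≤ k - z) * l ^ (k - 2 - a) = ∑ a ∈ range (k - z + 1), l ^ (k - 2 - a) := by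
    rw [tsum_eq_sum (s := range (k - z + 1))]
    · refine sum_congr rfl fun a ha => ?_
      rw [mem_range] at ha
      rw [ind_true (by omega), one_mul]
    · intro a ha
      rw [mem_range] at ha
      rw [ind_false (by omega), zero_mul]
  rw [e1, ← Finset.sum_range_reflect]
  calc ∑ j ∈ range (k - z + 1), l ^ (k - 2 - (k - z + 1 - 1 - j))
      = ∑ j ∈ range (k - z + 1), l ^ (z - 2) * l ^ j := by
        refine sum_congr rfl fun j hj => ?_
        rw [mem_range] at hj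
        rw [← pow_add]
        congr 1
        omega
    _ = l ^ (z - 2) * ∑ j ∈ range (k - z + 1), l ^ j := by rw [mul_sum]
    _ ≤ l ^ (z - 2) * ∑' j, l ^ j := mul_le_mul' le_rfl (ENNReal.sum_le_tsum _)
    _ = _ := by rw [ENNReal.tsum_geometric]

end PC

end Pool.Agent.HEP
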