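import Pool.Agent.PLY.Ch.Typ

/-!
Project PLY, chain step: skeletons. A letter is `(f, f', k, x, y)`: scale `k`; `f` (`f'`) says whether the start (end) fold sees a giant.
`(false, false, k, t, 0)`: type R, height `t`. `(true, false, k, a, 0)`: type M1, `(false, true, k, 0, b)`: type M2, `(true, true, k, a, b)`:
type I, near parts of classes `a` (start), `b` (end). The zone of a fold is `zn z k'`, `k'` the scale of the younger strand. The mass of the
chains with a given skeleton is at most a product over the folds, in two ways (`e = true`: the giants of the strands of type I are used at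
the start fold, `e = false`: at the end fold).
-/

namespace Pool.Agent.HEP

open scoped ENNReal
open Finset

namespace PC

open Ch

/-- Letters of a skeleton. -/
abbrev Lt := Bool × Bool × ℕ × ℕ × ℕ

/-- Zone of the scale `k`. -/
def zn (z k : ℕ) : ℕ := 2 ^ (k - z) - 1

/-- Smallest regular middle word of the scale `k`. -/
def mw (z k : ℕ) : ℕ := 2 ^ (k - z)

/-- Scale of the first letter. -/
def hd (z : ℕ) : List Lt → ℕ
  | [] => z
  | x :: _ => x.2.2.1

/-- The strand `W` has the letter `x`, the next strand has the scale `k'`. -/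
def In (A : Alph) (z k' : ℕ) : Lt → List A.B → Prop
  | (false, false, k, t, _), W => InR A (zn z k) (zn z k') (mw z k) t W
  | (true, false, k, a, _), W => InM A (zn z k) (zn z k') (mw z k) (k - 2) a W
  | (false, true, k, _, b), W => InN A (zn z k) (zn z k') (mw z k) (k - 2) b W
  | (true, true, k, a, b), W => InI A (zn z k) (zn z k') (k - 2) a b W

/-- Kind of the start. -/
def stK (e : Bool) (x : Lt) : Option (Bool × ℕ) := if x.1 then some (e || !x.2.1, x.2.2.2.1) else none

/-- Kind of the end. -/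
def enK (e : Bool) (x : Lt) : Option (Bool × ℕ) := if x.2.1 then some (!e || !x.1, x.2.2.2.2) else none

/-- Middle factor. -/
noncomputable def mid (A : Alph) (z : ℕ) : Lt → ℝ≥0∞
  | (false, false, k, _, _) => A.b (mw z k)
  | (true, false, k, _, _) => A.U (mw z k)
  | (false, true, k, _, _) => A.U (mw z k)
  | (true, true, _, _, _) => 1

theorem dec {A : Alph} (hb : Antitone A.b) (z k' : ℕ) (x : Lt) {g g' : List A.B → ℝ≥0∞} (hg : PA g) (hg' : PA g')
    (e : Bool) : ∑' W, ind (In A z k' x W) * (A.w W * (g W * g' W.reverse)) ≤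
      mid A z x * ((∑' P, WW A (zn z x.2.2.1) (x.2.2.1 - 2) (stK e x) P * g P) *
        (∑' Q, WW A (zn z k') (x.2.2.1 - 2) (enK e x) Q * g' Q)) := by
  obtain ⟨f, f', k, t, y⟩ := x
  cases f with
  | false =>
    cases f' with
    | false => exact decR hb _ _ _ _ hg hg'
    | true =>
      have h1 := decN (A := A) (zn z k) (zn z k') (mw z k) (k - 2) y hg hg'
      have e1 : enK e (false, true, k, t, y) = some (true, y) := by simp [enK]
      rw [e1]
      exact h1
  | true =>
    cases f' with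
    | false =>
      have h1 := decM (A := A) (zn z k) (zn z k') (mw z k) (k - 2) t hg hg'
      have e1 : stK e (true, false, k, t, y) = some (true, t) := by simp [stK]
      rw [e1]
      exact h1
    | true =>
      have h1 := decI (A := A) (zn z k) (zn z k') (k - 2) t y hg hg' e
      have e1 : stK e (true, true, k, t, y) = some (e, t) := by simp [stK]
      have e2 : enK e (true, true, k, t, y) = some (!e, y) := by simp [enK]
      rw [e1, e2]
      simp only [mid, one_mul]
      exact h1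

variable (S : Sys)

/-- Mass of the chains with a given skeleton behind the older leg `X`. -/
noncomputable def Mf (z : ℕ) : List Lt → List S.B → ℝ≥0∞
  | [], _ => 1
  | x :: σ, X => ∑' W, ind (In S.toAlph z (hd z σ) x W) * (S.w W * (ind (S.Av X W) * Mf z σ W.reverse))

/-- Mass of the chains with a given skeleton. -/
noncomputable def Mt (z : ℕ) : List Lt → ℝ≥0∞
  | [] => 1
  | x :: σ => ∑' W, ind (In S.toAlph z (hd z σ) x W) * (S.w W * Mf S z σ W.reverse)

/-- The product bound. -/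
noncomputable def De (z : ℕ) (e : Bool) : List Lt → (List S.B → ℝ≥0∞) → ℝ≥0∞
  | [], φ => ∑' l, φ l
  | x :: σ, φ => mid S.toAlph z x * (FF S φ (WW S.toAlph (zn z x.2.2.1) (x.2.2.1 - 2) (stK e x)) *
      De z e σ (WW S.toAlph (zn z (hd z σ)) (x.2.2.1 - 2) (enK e x)))

variable {S}

theorem PA_av (X : List S.B) : PA fun W => ind (S.Av X W) := by
  intro l l'
  refine ind_mono fun h => ?_
  have := S.Av_pre X [] l l' (by rw [List.append_nil]; exact h)
  exact this

theorem PA_one : PA (fun _ : List S.B => (1 : ℝ≥0∞)) := fun _ _ => le_rfl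

theorem PA_Mf (z : ℕ) (σ : List Lt) : PA (Mf S z σ) := by
  cases σ with
  | nil => intro l l'; simp [Mf]
  | cons x σ =>
    intro l l'
    simp only [Mf]
    refine ENNReal.tsum_le_tsum fun W => mul_le_mul' le_rfl (mul_le_mul' le_rfl (mul_le_mul' (ind_mono fun h => ?_) le_rfl))
    exact S.Av_pre l l' W [] (by rw [List.append_nil]; exact h)

/-- **The product bound** behind an older leg. -/
theorem Mf_le (hb : Antitone S.b) (z : ℕ) (e : Bool) (σ : List Lt) : ∀ φ : List S.B → ℝ≥0∞,
    ∑' X, φ X * Mf S z σ X ≤ De S z e σ φ := by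
  induction σ with
  | nil => intro φ; simp [Mf, De]
  | cons x σ ih =>
    intro φ
    simp only [Mf, De]
    set ψ := WW S.toAlph (zn z x.2.2.1) (x.2.2.1 - 2) (stK e x) with hψ
    set φ' := WW S.toAlph (zn z (hd z σ)) (x.2.2.1 - 2) (enK e x) with hφ'
    calc ∑' X, φ X * ∑' W, ind (In S.toAlph z (hd z σ) x W) * (S.w W * (ind (S.Av X W) * Mf S z σ W.reverse))
        ≤ ∑' X, φ X * (mid S.toAlph z x * ((∑' P, ψ P * ind (S.Av X P)) * (∑' Q, φ' Q * Mf S z σ Q))) :=
          ENNReal.tsum_le_tsum fun X => mul_le_mul' le_rfl (dec hb z (hd z σ) x (PA_av X) (PA_Mf z σ) e)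
      _ = mid S.toAlph z x * (FF S φ ψ * (∑' Q, φ' Q * Mf S z σ Q)) := by
          unfold FF
          rw [← ENNReal.tsum_mul_right, ← ENNReal.tsum_mul_left]
          refine tsum_congr fun X => ?_
          have e1 : ∑' s, ind (S.Av X s) * (φ X * ψ s) = φ X * ∑' P, ψ P * ind (S.Av X P) := by
            rw [← ENNReal.tsum_mul_left]
            refine tsum_congr fun s => ?_
            ring
          rw [e1]; ring
      _ ≤ _ := mul_le_mul' le_rfl (mul_le_mul' le_rfl (ih φ'))

/-- **The product bound.** -/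
theorem Mt_le (hb : Antitone S.b) (z : ℕ) (e : Bool) (x : Lt) (σ : List Lt) :
    Mt S z (x :: σ) ≤ mid S.toAlph z x * ((∑' P, WW S.toAlph (zn z x.2.2.1) (x.2.2.1 - 2) (stK e x) P) *
      De S z e σ (WW S.toAlph (zn z (hd z σ)) (x.2.2.1 - 2) (enK e x))) := by
  simp only [Mt]
  have h1 := dec hb z (hd z σ) x PA_one (PA_Mf z σ) e
  simp only [one_mul, mul_one] at h1
  exact h1.trans (mul_le_mul' le_rfl (mul_le_mul' le_rfl (Mf_le hb z e σ _)))

variable (S)

/-- The chain `c` has the skeleton `σ`. -/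
def Sk (z : ℕ) : List (List S.B) → List Lt → Prop
  | [], [] => True
  | W :: c, x :: σ => In S.toAlph z (hd z σ) x W ∧ Sk z c σ
  | [], _ :: _ => False
  | _ :: _, [] => False

/-- The first strand does not meet the leg `X`. -/
def HA (X : List S.B) (c : List (List S.B)) : Prop := ∀ W ∈ c.head?, S.Av X W

variable {S}

theorem chn_HA {W : List S.B} {c : List (List S.B)} (h : S.Chn (W :: c)) : HA S W.reverse c := by
  cases c with
  | nil => intro W' h'; simp at h'
  | cons W1 c =>
    intro W' h'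
    simp only [List.head?_cons, Option.mem_def, Option.some.injEq] at h'
    subst h'
    exact h.1.2

theorem sum_Sk_le (z : ℕ) (σ : List Lt) : ∀ X : List S.B,
    ∑' c : List (List S.B), ind (HA S X c ∧ S.Chn c ∧ Sk S z c σ) * (c.map S.w).prod ≤ Mf S z σ X := by
  induction σ with
  | nil =>
    intro X
    simp only [Mf]
    refine tsum_empty (Q := fun c => HA S X c ∧ S.Chn c ∧ Sk S z c []) fun W c h => ?_
    exact h.2.2
  | cons x σ ih =>
    intro X
    rw [tsum_list]
    simp only [Mf]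
    rw [ind_false (p := HA S X [] ∧ S.Chn [] ∧ Sk S z [] (x :: σ)) (fun h => h.2.2), zero_mul, zero_add]
    refine ENNReal.tsum_le_tsum fun W => ?_
    calc ∑' c, ind (HA S X (W :: c) ∧ S.Chn (W :: c) ∧ Sk S z (W :: c) (x :: σ)) * ((W :: c).map S.w).prod
        ≤ ∑' c, (ind (In S.toAlph z (hd z σ) x W) * (S.w W * ind (S.Av X W))) *
          (ind (HA S W.reverse c ∧ S.Chn c ∧ Sk S z c σ) * (c.map S.w).prod) := by
          refine ENNReal.tsum_le_tsum fun c => ?_
          by_cases h : HA S X (W :: c) ∧ S.Chn (W :: c) ∧ Sk S z (W :: c) (x :: σ)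
          · obtain ⟨h1, h2, h3, h4⟩ := h
            rw [ind_true (p := HA S X (W :: c) ∧ S.Chn (W :: c) ∧ Sk S z (W :: c) (x :: σ)) ⟨h1, h2, h3, h4⟩,
              ind_true h3, ind_true (p := S.Av X W) (h1 W (by simp)),
              ind_true (p := HA S W.reverse c ∧ S.Chn c ∧ Sk S z c σ) ⟨chn_HA h2, chn_tail h2, h4⟩]
            simp
          · rw [ind_false h, zero_mul]; exact bot_le
      _ ≤ (ind (In S.toAlph z (hd z σ) x W) * (S.w W * ind (S.Av X W))) * Mf S z σ W.reverse := by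
          rw [ENNReal.tsum_mul_left]
          exact mul_le_mul' le_rfl (ih W.reverse)
      _ = _ := by ring

theorem sum_Sk_le' (z : ℕ) (σ : List Lt) :
    ∑' c : List (List S.B), ind (S.Chn c ∧ Sk S z c σ) * (c.map S.w).prod ≤ Mt S z σ := by
  cases σ with
  | nil =>
    simp only [Mt]
    exact tsum_empty (Q := fun c => S.Chn c ∧ Sk S z c []) fun W c h => h.2
  | cons x σ =>
    rw [tsum_list]
    simp only [Mt]
    rw [ind_false (p := S.Chn [] ∧ Sk S z [] (x :: σ)) (fun h => h.2), zero_mul, zero_add]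
    refine ENNReal.tsum_le_tsum fun W => ?_
    calc ∑' c, ind (S.Chn (W :: c) ∧ Sk S z (W :: c) (x :: σ)) * ((W :: c).map S.w).prod
        ≤ ∑' c, (ind (In S.toAlph z (hd z σ) x W) * S.w W) *
          (ind (HA S W.reverse c ∧ S.Chn c ∧ Sk S z c σ) * (c.map S.w).prod) := by
          refine ENNReal.tsum_le_tsum fun c => ?_
          by_cases h : S.Chn (W :: c) ∧ Sk S z (W :: c) (x :: σ)
          · obtain ⟨h2, h3, h4⟩ := h
            rw [ind_true (p := S.Chn (W :: c) ∧ Sk S z (W :: c) (x :: σ)) ⟨h2, h3, h4⟩,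
              ind_true h3, ind_true (p := HA S W.reverse c ∧ S.Chn c ∧ Sk S z c σ) ⟨chn_HA h2, chn_tail h2, h4⟩]
            simp
          · rw [ind_false h, zero_mul]; exact bot_le
      _ ≤ (ind (In S.toAlph z (hd z σ) x W) * S.w W) * Mf S z σ W.reverse := by
          rw [ENNReal.tsum_mul_left]
          exact mul_le_mul' le_rfl (sum_Sk_le z σ W.reverse)
      _ = _ := by ring

/-- The local conditions of a letter, all heights less than `T`, next scale `k'`. -/
def Loc (z k' T : ℕ) : Lt → Prop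
  | (false, false, k, t, y) => y = 0 ∧ 2 ^ k ≤ t ∧ t < 2 ^ (k + 1) ∧ t < T ∧ z ≤ k
  | (true, false, k, a, y) => y = 0 ∧ 2 ^ k < T ∧ z ≤ k ∧ a ≤ k - z
  | (false, true, k, x, b) => x = 0 ∧ 2 ^ k < T ∧ z ≤ k ∧ b ≤ k' - z
  | (true, true, k, a, b) => 2 ^ k < T ∧ z ≤ k ∧ a ≤ k - z ∧ b ≤ k' - z

/-- The bound for the heights behind a letter. -/
def nT (T : ℕ) : Lt → ℕ
  | (false, false, _, t, _) => t
  | (true, false, k, _, _) => min T (2 ^ (k + 1))
  | (false, true, k, _, _) => min T (2 ^ (k + 1))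
  | (true, true, k, _, _) => min T (2 ^ (k + 1))

/-- Admissible skeletons, all heights less than `T`. -/
def Adm (z : ℕ) : List Lt → ℕ → Prop
  | [], _ => True
  | x :: σ, T => Loc z (hd z σ) T x ∧ Adm z σ (nT T x)

theorem Adm_mono (z : ℕ) (σ : List Lt) : ∀ {T T' : ℕ}, T ≤ T' → Adm z σ T → Adm z σ T' := by
  induction σ with
  | nil => intro T T' _ _; trivial
  | cons x σ ih =>
    obtain ⟨f, f', k, t, y⟩ := x
    intro T T' hT h
    obtain ⟨h1, h2⟩ := h
    cases f with
    | false =>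
      cases f' with
      | false => exact ⟨⟨h1.1, h1.2.1, h1.2.2.1, by have := h1.2.2.2.1; omega, h1.2.2.2.2⟩, h2⟩
      | true => exact ⟨⟨h1.1, by have := h1.2.1; omega, h1.2.2⟩, ih (by simp only [nT]; omega) h2⟩
    | true =>
      cases f' with
      | false => exact ⟨⟨h1.1, by have := h1.2.1; omega, h1.2.2⟩, ih (by simp only [nT]; omega) h2⟩
      | true => exact ⟨⟨by have := h1.1; omega, h1.2⟩, ih (by simp only [nT]; omega) h2⟩

theorem Loc_sc {z k' T : ℕ} {x : Lt} (h : Loc z k' T x) : 2 ^ x.2.2.1 < T ∧ z ≤ x.2.2.1 := by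
  obtain ⟨f, f', k, t, y⟩ := x
  cases f with
  | false =>
    cases f' with
    | false => exact ⟨lt_of_le_of_lt h.2.1 h.2.2.2.1, h.2.2.2.2⟩
    | true => exact ⟨h.2.1, h.2.2.1⟩
  | true =>
    cases f' with
    | false => exact ⟨h.2.1, h.2.2.1⟩
    | true => exact ⟨h.1, h.2.1⟩

theorem Adm_hd {z : ℕ} {σ : List Lt} {T k : ℕ} (h : Adm z σ T) (hT : T ≤ 2 ^ (k + 1)) (hz : z ≤ k) : hd z σ ≤ k := by
  cases σ with
  | nil => exact hz
  | cons x σ =>
    have h1 : 2 ^ x.2.2.1 < 2 ^ (k + 1) := lt_of_lt_of_le (Loc_sc h.1).1 hT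
    have h2 := (Nat.pow_lt_pow_iff_right (by norm_num : 1 < 2)).1 h1
    exact Nat.lt_succ_iff.1 h2

theorem hd_ge {z : ℕ} {σ : List Lt} {T : ℕ} (h : Adm z σ T) : z ≤ hd z σ := by
  cases σ with
  | nil => exact le_rfl
  | cons x σ => exact (Loc_sc h.1).2

/-- A word of height larger than `N` has a block which crosses `N`. -/
theorem cross {A : Alph} {N : ℕ} {l : List A.B} (h : N < A.h l) :
    ∃ (P : List A.B) (c : A.B) (u : List A.B), P ++ c :: u = l ∧ A.h P ≤ N ∧ N < A.h P + A.ht c := by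
  obtain ⟨r, hr⟩ := A.cut_prefix N l
  cases r with
  | nil =>
    exfalso
    rw [List.append_nil] at hr
    have := A.h_cut_le N l
    rw [← hr] at this
    omega
  | cons c u => exact ⟨A.cut N l, c, u, hr.symm, A.h_cut_le N l, A.h_cut_lt N l hr⟩

/-- One block or two different blocks over the zones. -/
theorem cases {A : Alph} {r r' : ℕ} {W : List A.B} (h : r + r' < A.h W) :
    (∃ (P Q : List A.B) (c c' : A.B) (v : List A.B), P ++ c :: (v ++ c' :: Q.reverse) = W ∧
      (A.h P ≤ r ∧ r < A.h P + A.ht c) ∧ (A.h Q ≤ r' ∧ r' < A.h Q + A.ht c')) ∨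
    (∃ (P Q : List A.B) (c : A.B), P ++ c :: Q.reverse = W ∧ A.h P ≤ r ∧ A.h Q ≤ r') := by
  obtain ⟨P, c, u, h1, h2, h3⟩ := cross (A := A) (N := r) (l := W) (by omega)
  by_cases hu : A.h u ≤ r'
  · right
    exact ⟨P, u.reverse, c, by rw [List.reverse_reverse]; exact h1, h2, by rw [A.h_reverse]; exact hu⟩
  · left
    obtain ⟨Q, c', v, h4, h5, h6⟩ := cross (A := A) (N := r') (l := u.reverse) (by rw [A.h_reverse]; omega)
    refine ⟨P, Q, c, c', v.reverse, ?_, ⟨h2, h3⟩, h5, h6⟩
    rw [← h1]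
    have e : u = v.reverse ++ c' :: Q.reverse := by
      rw [← List.reverse_reverse u, ← h4]
      simp
    rw [e]

theorem exists_Sk {z : ℕ} (hz : 3 ≤ z) (c : List (List S.B)) : ∀ T : ℕ, S.Chn c → (∀ W ∈ c, 2 ^ z ≤ S.h W ∧ S.h W < T) →
    ∃ σ, Adm z σ T ∧ Sk S z c σ := by
  induction c with
  | nil => intro T _ _; exact ⟨[], trivial, trivial⟩
  | cons W c ih =>
    intro T hc hT
    have hW := hT W (by simp)
    obtain ⟨σ, hσ, hs⟩ := ih (S.h W) (chn_tail hc) fun W' hW' =>
      ⟨(hT W' (by simp [hW'])).1, chn_lt hc W' hW'⟩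
    set k := Nat.log 2 (S.h W) with hk
    have h0 : S.h W ≠ 0 := by
      have : 0 < 2 ^ z := by positivity
      omega
    have hk1 : 2 ^ k ≤ S.h W := Nat.pow_log_le_self 2 h0
    have hk2 : S.h W < 2 ^ (k + 1) := Nat.lt_pow_succ_log_self (by norm_num) _
    have hzk : z ≤ k := by
      have h1 : 2 ^ z < 2 ^ (k + 1) := by omega
      have h2 := (Nat.pow_lt_pow_iff_right (by norm_num : 1 < 2)).1 h1
      exact Nat.lt_succ_iff.1 h2
    have hk' : hd z σ ≤ k := Adm_hd hσ hk2.le hzk
    have hzk' : z ≤ hd z σ := hd_ge hσ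
    have e1 : 2 ^ k = 2 ^ z * 2 ^ (k - z) := by rw [← pow_add]; congr 1; omega
    have e2 : 8 ≤ 2 ^ z := by
      calc 8 = 2 ^ 3 := by norm_num
        _ ≤ 2 ^ z := Nat.pow_le_pow_right (by norm_num) hz
    have e3 : 2 ^ (hd z σ - z) ≤ 2 ^ (k - z) := Nat.pow_le_pow_right (by norm_num) (by omega)
    have e4 : 0 < 2 ^ (hd z σ - z) := by positivity
    have e5 : 8 * 2 ^ (k - z) ≤ 2 ^ k := by rw [e1]; exact Nat.mul_le_mul_right _ e2
    have e6 : 2 ^ k = 4 * 2 ^ (k - 2) := by
      have : (4 : ℕ) = 2 ^ 2 := by norm_num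
      rw [this, ← pow_add]; congr 1; omega
    have hT' : S.h W ≤ min T (2 ^ (k + 1)) := by omega
    rcases cases (A := S.toAlph) (r := zn z k) (r' := zn z (hd z σ)) (W := W) (by unfold zn; omega) with h | h
    · obtain ⟨P, Q, c1, c2, v, h1, h2, h3⟩ := h
      have h4 : S.h W = S.h P + (S.ht c1 + (S.h v + (S.ht c2 + S.h Q))) := by
        rw [← h1, S.h_append, S.h_cons, S.h_append, S.h_cons, S.h_reverse]
      by_cases hv : mw z k ≤ S.h v
      · refine ⟨(false, false, k, S.h W, 0) :: σ, ⟨⟨rfl, hk1, hk2, hW.2, hzk⟩, hσ⟩, ?_, hs⟩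
        exact ⟨rfl, P, Q, c1, c2, v, h1, h2, h3, hv⟩
      · push Not at hv
        have hPc : Nat.size (S.h P) ≤ k - z := by
          rw [Nat.size_le]
          have := h2.1
          unfold zn at this
          omega
        have hQc : Nat.size (S.h Q) ≤ hd z σ - z := by
          rw [Nat.size_le]
          have := h3.1
          unfold zn at this
          omega
        by_cases hc1 : 2 ^ (k - 2) ≤ S.ht c1
        · refine ⟨(true, false, k, Nat.size (S.h P), 0) :: σ, ⟨⟨rfl, by omega, hzk, hPc⟩, Adm_mono z σ hT' hσ⟩, ?_, hs⟩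
          exact ⟨P, Q, c1, c2, v, h1, ⟨⟨h2.1, rfl⟩, hc1⟩, h3, hv.le⟩
        · refine ⟨(false, true, k, 0, Nat.size (S.h Q)) :: σ, ⟨⟨rfl, by omega, hzk, hQc⟩, Adm_mono z σ hT' hσ⟩, ?_, hs⟩
          refine ⟨P, Q, c1, c2, v, h1, h2, ⟨⟨h3.1, rfl⟩, ?_⟩, hv.le⟩
          have h5 := h2.1
          have h6 := h3.1
          unfold zn at h5 h6
          unfold mw at hv
          omega
    · obtain ⟨P, Q, c', h1, h2, h3⟩ := h
      have h4 : S.h W = S.h P + (S.ht c' + S.h Q) := by
        rw [← h1, S.h_append, S.h_cons, S.h_reverse]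
      unfold zn at h2 h3
      refine ⟨(true, true, k, Nat.size (S.h P), Nat.size (S.h Q)) :: σ, ⟨⟨by omega, hzk, ?_, ?_⟩,
        Adm_mono z σ hT' hσ⟩, ?_, hs⟩
      · rw [Nat.size_le]; omega
      · rw [Nat.size_le]; omega
      · exact ⟨P, Q, c', h1, ⟨h2, rfl⟩, ⟨h3, rfl⟩, by omega⟩

/-- **Sum over the skeletons.** -/
theorem CC_le_sum {z : ℕ} (hz : 3 ≤ z) (T : ℕ) : CC S (2 ^ z) T ≤ ∑' σ, ind (Adm z σ T) * Mt S z σ := by
  calc CC S (2 ^ z) T ≤ ∑' c : List (List S.B), ∑' σ, ind (Adm z σ T) * (ind (S.Chn c ∧ Sk S z c σ) * (c.map S.w).prod) := by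
        unfold CC
        refine ENNReal.tsum_le_tsum fun c => ?_
        by_cases h : S.Chn c ∧ HtIn S (2 ^ z) T c
        · obtain ⟨σ, h1, h2⟩ := exists_Sk hz c T h.1 h.2
          refine le_trans (le_of_eq ?_) (ENNReal.le_tsum σ)
          rw [ind_true h, ind_true h1, ind_true ⟨h.1, h2⟩]
          simp
        · rw [ind_false h, zero_mul]; exact bot_le
    _ = ∑' σ, ind (Adm z σ T) * ∑' c : List (List S.B), (ind (S.Chn c ∧ Sk S z c σ) * (c.map S.w).prod) := by
        rw [ENNReal.tsum_comm]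
        refine tsum_congr fun σ => ?_
        rw [ENNReal.tsum_mul_left]
    _ ≤ _ := ENNReal.tsum_le_tsum fun σ => mul_le_mul' le_rfl (sum_Sk_le' z σ)

end PC

end Pool.Agent.HEP
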