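import Pool.Agent.PLY.Ch.Num

/-!
Project PLY, chain step: the recursion for the sums over the skeletons.
-/

namespace Pool.Agent.HEP

open scoped ENNReal
open Finset

namespace PC

open Ch

theorem ss_f (A : Alph) (ρ : ℝ≥0∞) (r m : ℕ) (g : Bool) (a : ℕ) : ss A ρ r m false g a = sq (A.U r)⁻¹ := by
  simp [ss, qq]

theorem ss_tf (A : Alph) (ρ : ℝ≥0∞) (r m : ℕ) (a : ℕ) :
    ss A ρ r m true false a = sq ρ ^ (m - a) * sq (A.U r)⁻¹ := by
  simp [ss, qq, sq_mul, sq_pow]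

theorem ss_tt (A : Alph) (ρ : ℝ≥0∞) (r m : ℕ) (a : ℕ) : ss A ρ r m true true a = sq ρ ^ (m - a) := by
  simp [ss, qq, sq_pow]

theorem EV_f (A : Alph) (ρ C : ℝ≥0∞) (z : ℕ) (σ : List Lt) (g : Bool) (b : ℕ) :
    EV A ρ C z σ false g b = EV A ρ C z σ false false 0 := by
  cases σ with
  | nil => rfl
  | cons y σ => simp only [EV, ss_f]

variable (A : Alph) (ρ C : ℝ≥0∞) (z : ℕ)

/-- Weight of a regular leg at a fold of the scale `k`. -/
noncomputable def uu (k : ℕ) : ℝ≥0∞ := sq (A.U (zn z k))⁻¹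

/-- Sum over the classes. -/
noncomputable def kp : ℝ≥0∞ := sq ρ ^ (z - 2) * (1 - sq ρ)⁻¹

/-- Sum over the skeletons behind a regular end. -/
noncomputable def VR (N T : ℕ) : ℝ≥0∞ := ∑' σ, ind (Adm z σ T ∧ σ.length ≤ N) * EV A ρ C z σ false false 0

/-- Sum over the skeletons behind an end with a giant. -/
noncomputable def VX (g : Bool) (N T : ℕ) : ℝ≥0∞ :=
  ∑' σ, ind (Adm z σ T ∧ σ.length ≤ N) * ∑' b, ind (b ≤ hd z σ - z) * EV A ρ C z σ true g b

/-- Sum over the first letter. -/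
noncomputable def LS (N T : ℕ) : ℝ≥0∞ :=
  ∑' y : Lt, ∑' σ, ind (Loc z (hd z σ) T y ∧ Adm z σ (nT T y) ∧ σ.length ≤ N) *
    ((C * uu A z y.2.2.1) * (mid A z y * ss A ρ (zn z y.2.2.1) (y.2.2.1 - 2) y.1 y.2.1 y.2.2.2.1) *
      EV A ρ C z σ y.2.1 y.1 y.2.2.2.2)

theorem VR_succ (N T : ℕ) : VR A ρ C z (N + 1) T ≤ 1 + LS A ρ C z N T := by
  unfold VR
  rw [tsum_list]
  refine add_le_add ?_ ?_
  · calc _ ≤ 1 * 1 := mul_le_mul' (ind_le_one _) le_rfl
      _ = 1 := one_mul 1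
  · unfold LS
    refine ENNReal.tsum_le_tsum fun y => ENNReal.tsum_le_tsum fun σ => ?_
    by_cases h : Adm z (y :: σ) T ∧ (y :: σ).length ≤ N + 1
    · obtain ⟨⟨h1, h2⟩, h3⟩ := h
      have h3' : σ.length ≤ N := by simpa using h3
      rw [ind_true (p := Adm z (y :: σ) T ∧ (y :: σ).length ≤ N + 1) ⟨⟨h1, h2⟩, h3⟩, ind_true ⟨h1, h2, h3'⟩]
      simp only [EV, ss_f, uu]
      apply le_of_eq; ring
    · rw [ind_false h, zero_mul]; exact bot_le

theorem VX_succ (N T : ℕ) (g : Bool) (Z : ℝ≥0∞)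
    (hZ : ∀ k, z ≤ k → 2 ^ k < T → ∑' b, ind (b ≤ k - z) * ss A ρ (zn z k) (k - 2) true g b ≤ Z * uu A z k) :
    VX A ρ C z g (N + 1) T ≤ 1 + Z * LS A ρ C z N T := by
  unfold VX
  rw [tsum_list]
  refine add_le_add ?_ ?_
  · calc _ ≤ 1 * ∑' b : ℕ, ind (b = 0) := by
          refine mul_le_mul' (ind_le_one _) (ENNReal.tsum_le_tsum fun b => ?_)
          simp only [EV, mul_one, hd]
          exact ind_mono fun h => by omega
      _ = 1 := by rw [tsum_eq_single 0 (fun k hk => ind_false hk), ind_true rfl, one_mul]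
  · unfold LS
    rw [← ENNReal.tsum_mul_left]
    refine ENNReal.tsum_le_tsum fun y => ?_
    rw [← ENNReal.tsum_mul_left]
    refine ENNReal.tsum_le_tsum fun σ => ?_
    by_cases h : Adm z (y :: σ) T ∧ (y :: σ).length ≤ N + 1
    · obtain ⟨⟨h1, h2⟩, h3⟩ := h
      have h3' : σ.length ≤ N := by simpa using h3
      have h4 := Loc_sc h1
      rw [ind_true (p := Adm z (y :: σ) T ∧ (y :: σ).length ≤ N + 1) ⟨⟨h1, h2⟩, h3⟩, ind_true ⟨h1, h2, h3'⟩,
        one_mul, one_mul]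
      have e : hd z (y :: σ) = y.2.2.1 := rfl
      rw [e]
      simp only [EV]
      calc ∑' b, ind (b ≤ y.2.2.1 - z) * (mid A z y * (C * (ss A ρ (zn z y.2.2.1) (y.2.2.1 - 2) true g b *
              ss A ρ (zn z y.2.2.1) (y.2.2.1 - 2) y.1 y.2.1 y.2.2.2.1)) * EV A ρ C z σ y.2.1 y.1 y.2.2.2.2)
          = ∑' b, (mid A z y * (C * ss A ρ (zn z y.2.2.1) (y.2.2.1 - 2) y.1 y.2.1 y.2.2.2.1) *
              EV A ρ C z σ y.2.1 y.1 y.2.2.2.2) * (ind (b ≤ y.2.2.1 - z) * ss A ρ (zn z y.2.2.1) (y.2.2.1 - 2) true g b) := by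
            refine tsum_congr fun b => ?_
            ring
        _ ≤ (mid A z y * (C * ss A ρ (zn z y.2.2.1) (y.2.2.1 - 2) y.1 y.2.1 y.2.2.2.1) *
              EV A ρ C z σ y.2.1 y.1 y.2.2.2.2) * (Z * uu A z y.2.2.1) := by
            rw [ENNReal.tsum_mul_left]
            exact mul_le_mul' le_rfl (hZ _ h4.2 h4.1)
        _ = _ := by ring
    · rw [ind_false h, zero_mul]; exact bot_le

theorem tsum_Lt (F : Lt → ℝ≥0∞) : ∑' y, F y =
    ((∑' k, ∑' t, ∑' b, F (false, false, k, t, b)) + ∑' k, ∑' t, ∑' b, F (false, true, k, t, b)) +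
    ((∑' k, ∑' t, ∑' b, F (true, false, k, t, b)) + ∑' k, ∑' t, ∑' b, F (true, true, k, t, b)) := by
  rw [ENNReal.tsum_prod', tsum_bool]
  congr 1
  · rw [ENNReal.tsum_prod', tsum_bool]
    congr 1
    · rw [ENNReal.tsum_prod']
      refine tsum_congr fun k => ?_
      rw [ENNReal.tsum_prod']
    · rw [ENNReal.tsum_prod']
      refine tsum_congr fun k => ?_
      rw [ENNReal.tsum_prod']
  · rw [ENNReal.tsum_prod', tsum_bool]
    congr 1
    · rw [ENNReal.tsum_prod']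
      refine tsum_congr fun k => ?_
      rw [ENNReal.tsum_prod']
    · rw [ENNReal.tsum_prod']
      refine tsum_congr fun k => ?_
      rw [ENNReal.tsum_prod']

/-- Type R. -/
theorem LS_R (N T k : ℕ) : (∑' t, ∑' b, ∑' σ, ind (Loc z (hd z σ) T (false, false, k, t, b) ∧
      Adm z σ (nT T (false, false, k, t, b)) ∧ σ.length ≤ N) *
    ((C * uu A z k) * (mid A z (false, false, k, t, b) * ss A ρ (zn z k) (k - 2) false false t) *
      EV A ρ C z σ false false b)) ≤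
    ∑' t, ind (2 ^ k ≤ t ∧ t < 2 ^ (k + 1) ∧ t < T ∧ z ≤ k) *
      ((C * uu A z k) * (A.b (mw z k) * uu A z k) * VR A ρ C z N t) := by
  refine ENNReal.tsum_le_tsum fun t => ?_
  rw [tsum_eq_single 0]
  · unfold VR
    rw [← ENNReal.tsum_mul_left, ← ENNReal.tsum_mul_left]
    refine ENNReal.tsum_le_tsum fun σ => ?_
    by_cases h : Loc z (hd z σ) T (false, false, k, t, 0) ∧ Adm z σ (nT T (false, false, k, t, 0)) ∧ σ.length ≤ N
    · obtain ⟨h1, h2, h3⟩ := h
      rw [ind_true ⟨h1, h2, h3⟩, ind_true h1.2, ind_true (p := Adm z σ t ∧ σ.length ≤ N) ⟨h2, h3⟩, ss_f]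
      simp only [mid, uu]
      apply le_of_eq; ring
    · rw [ind_false h, zero_mul]; exact bot_le
  · intro b hb
    rw [ENNReal.tsum_eq_zero]
    intro σ
    rw [ind_false (fun h => hb h.1.1), zero_mul]

/-- Type M1. -/
theorem LS_M (hz : 2 ≤ z) (N T k : ℕ) : (∑' a, ∑' b, ∑' σ, ind (Loc z (hd z σ) T (true, false, k, a, b) ∧
      Adm z σ (nT T (true, false, k, a, b)) ∧ σ.length ≤ N) *
    ((C * uu A z k) * (mid A z (true, false, k, a, b) * ss A ρ (zn z k) (k - 2) true false a) *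
      EV A ρ C z σ false true b)) ≤
    ind (2 ^ k < T ∧ z ≤ k) *
      ((C * uu A z k) * (A.U (mw z k) * (kp ρ z * uu A z k)) * VR A ρ C z N (min T (2 ^ (k + 1)))) := by
  by_cases hk : 2 ^ k < T ∧ z ≤ k
  · rw [ind_true hk, one_mul]
    have h1 : ∀ a, (∑' b, ∑' σ, ind (Loc z (hd z σ) T (true, false, k, a, b) ∧
        Adm z σ (nT T (true, false, k, a, b)) ∧ σ.length ≤ N) *
        ((C * uu A z k) * (mid A z (true, false, k, a, b) * ss A ρ (zn z k) (k - 2) true false a) *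
        EV A ρ C z σ false true b)) ≤ (ind (a ≤ k - z) * sq ρ ^ (k - 2 - a)) *
        ((C * uu A z k) * (A.U (mw z k) * uu A z k) * VR A ρ C z N (min T (2 ^ (k + 1)))) := by
      intro a
      rw [tsum_eq_single 0]
      · unfold VR
        rw [← ENNReal.tsum_mul_left, ← ENNReal.tsum_mul_left]
        refine ENNReal.tsum_le_tsum fun σ => ?_
        by_cases h : Loc z (hd z σ) T (true, false, k, a, 0) ∧ Adm z σ (nT T (true, false, k, a, 0)) ∧ σ.length ≤ N
        · obtain ⟨h1, h2, h3⟩ := h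
          rw [ind_true ⟨h1, h2, h3⟩, ind_true h1.2.2.2, ind_true (p := Adm z σ (min T (2 ^ (k + 1))) ∧ σ.length ≤ N) ⟨h2, h3⟩, ss_tf, EV_f]
          simp only [mid, uu]
          apply le_of_eq; ring
        · rw [ind_false h, zero_mul]; exact bot_le
      · intro b hb
        rw [ENNReal.tsum_eq_zero]
        intro σ
        rw [ind_false (fun h => hb h.1.1), zero_mul]
    refine (ENNReal.tsum_le_tsum h1).trans ?_
    rw [ENNReal.tsum_mul_right]
    calc _ ≤ kp ρ z * ((C * uu A z k) * (A.U (mw z k) * uu A z k) * VR A ρ C z N (min T (2 ^ (k + 1)))) :=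
          mul_le_mul' (sum_cls (sq ρ) hz hk.2) le_rfl
      _ = _ := by ring
  · refine le_trans (le_of_eq (b := 0) ?_) bot_le
    rw [ENNReal.tsum_eq_zero]
    intro a
    rw [ENNReal.tsum_eq_zero]
    intro b
    rw [ENNReal.tsum_eq_zero]
    intro σ
    rw [ind_false (fun h => hk ⟨h.1.2.1, h.1.2.2.1⟩), zero_mul]

/-- Type M2. -/
theorem LS_N (N T k : ℕ) : (∑' a, ∑' b, ∑' σ, ind (Loc z (hd z σ) T (false, true, k, a, b) ∧
      Adm z σ (nT T (false, true, k, a, b)) ∧ σ.length ≤ N) *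
    ((C * uu A z k) * (mid A z (false, true, k, a, b) * ss A ρ (zn z k) (k - 2) false true a) *
      EV A ρ C z σ true false b)) ≤
    ind (2 ^ k < T ∧ z ≤ k) *
      ((C * uu A z k) * (A.U (mw z k) * uu A z k) * VX A ρ C z false N (min T (2 ^ (k + 1)))) := by
  by_cases hk : 2 ^ k < T ∧ z ≤ k
  · rw [ind_true hk, one_mul, tsum_eq_single 0]
    · rw [ENNReal.tsum_comm]
      unfold VX
      rw [← ENNReal.tsum_mul_left]
      refine ENNReal.tsum_le_tsum fun σ => ?_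
      rw [← ENNReal.tsum_mul_left, ← ENNReal.tsum_mul_left]
      refine ENNReal.tsum_le_tsum fun b => ?_
      by_cases h : Loc z (hd z σ) T (false, true, k, 0, b) ∧ Adm z σ (nT T (false, true, k, 0, b)) ∧ σ.length ≤ N
      · obtain ⟨h1, h2, h3⟩ := h
        rw [ind_true ⟨h1, h2, h3⟩, ind_true h1.2.2.2, ind_true (p := Adm z σ (min T (2 ^ (k + 1))) ∧ σ.length ≤ N) ⟨h2, h3⟩, ss_f]
        simp only [mid, uu]
        apply le_of_eq; ring
      · rw [ind_false h, zero_mul]; exact bot_le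
    · intro a ha
      rw [ENNReal.tsum_eq_zero]
      intro b
      rw [ENNReal.tsum_eq_zero]
      intro σ
      rw [ind_false (fun h => ha h.1.1), zero_mul]
  · refine le_trans (le_of_eq (b := 0) ?_) bot_le
    rw [ENNReal.tsum_eq_zero]
    intro a
    rw [ENNReal.tsum_eq_zero]
    intro b
    rw [ENNReal.tsum_eq_zero]
    intro σ
    rw [ind_false (fun h => hk ⟨h.1.2.1, h.1.2.2.1⟩), zero_mul]

/-- Type I. -/
theorem LS_I (hz : 2 ≤ z) (N T k : ℕ) : (∑' a, ∑' b, ∑' σ, ind (Loc z (hd z σ) T (true, true, k, a, b) ∧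
      Adm z σ (nT T (true, true, k, a, b)) ∧ σ.length ≤ N) *
    ((C * uu A z k) * (mid A z (true, true, k, a, b) * ss A ρ (zn z k) (k - 2) true true a) *
      EV A ρ C z σ true true b)) ≤
    ind (2 ^ k < T ∧ z ≤ k) *
      ((C * uu A z k) * kp ρ z * VX A ρ C z true N (min T (2 ^ (k + 1)))) := by
  by_cases hk : 2 ^ k < T ∧ z ≤ k
  · rw [ind_true hk, one_mul]
    have h1 : ∀ a, (∑' b, ∑' σ, ind (Loc z (hd z σ) T (true, true, k, a, b) ∧
        Adm z σ (nT T (true, true, k, a, b)) ∧ σ.length ≤ N) *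
        ((C * uu A z k) * (mid A z (true, true, k, a, b) * ss A ρ (zn z k) (k - 2) true true a) *
        EV A ρ C z σ true true b)) ≤ (ind (a ≤ k - z) * sq ρ ^ (k - 2 - a)) *
        ((C * uu A z k) * VX A ρ C z true N (min T (2 ^ (k + 1)))) := by
      intro a
      rw [ENNReal.tsum_comm]
      unfold VX
      rw [← ENNReal.tsum_mul_left, ← ENNReal.tsum_mul_left]
      refine ENNReal.tsum_le_tsum fun σ => ?_
      rw [← ENNReal.tsum_mul_left, ← ENNReal.tsum_mul_left, ← ENNReal.tsum_mul_left]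
      refine ENNReal.tsum_le_tsum fun b => ?_
      by_cases h : Loc z (hd z σ) T (true, true, k, a, b) ∧ Adm z σ (nT T (true, true, k, a, b)) ∧ σ.length ≤ N
      · obtain ⟨h1, h2, h3⟩ := h
        rw [ind_true ⟨h1, h2, h3⟩, ind_true h1.2.2.1, ind_true h1.2.2.2, ind_true (p := Adm z σ (min T (2 ^ (k + 1))) ∧ σ.length ≤ N) ⟨h2, h3⟩,
          ss_tt]
        simp only [mid]
        apply le_of_eq; ring
      · rw [ind_false h, zero_mul]; exact bot_le
    refine (ENNReal.tsum_le_tsum h1).trans ?_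
    rw [ENNReal.tsum_mul_right]
    calc _ ≤ kp ρ z * ((C * uu A z k) * VX A ρ C z true N (min T (2 ^ (k + 1)))) :=
          mul_le_mul' (sum_cls (sq ρ) hz hk.2) le_rfl
      _ = _ := by ring
  · refine le_trans (le_of_eq (b := 0) ?_) bot_le
    rw [ENNReal.tsum_eq_zero]
    intro a
    rw [ENNReal.tsum_eq_zero]
    intro b
    rw [ENNReal.tsum_eq_zero]
    intro σ
    rw [ind_false (fun h => hk ⟨h.1.1, h.1.2.1⟩), zero_mul]

theorem LS_le (hz : 2 ≤ z) (N T : ℕ) : LS A ρ C z N T ≤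
    ((∑' k, ∑' t, ind (2 ^ k ≤ t ∧ t < 2 ^ (k + 1) ∧ t < T ∧ z ≤ k) *
      ((C * uu A z k) * (A.b (mw z k) * uu A z k) * VR A ρ C z N t)) +
    ∑' k, ind (2 ^ k < T ∧ z ≤ k) *
      ((C * uu A z k) * (A.U (mw z k) * uu A z k) * VX A ρ C z false N (min T (2 ^ (k + 1))))) +
    ((∑' k, ind (2 ^ k < T ∧ z ≤ k) *
      ((C * uu A z k) * (A.U (mw z k) * (kp ρ z * uu A z k)) * VR A ρ C z N (min T (2 ^ (k + 1))))) +
    ∑' k, ind (2 ^ k < T ∧ z ≤ k) *
      ((C * uu A z k) * kp ρ z * VX A ρ C z true N (min T (2 ^ (k + 1))))) := by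
  unfold LS
  rw [tsum_Lt]
  refine add_le_add (add_le_add ?_ ?_) (add_le_add ?_ ?_)
  · exact ENNReal.tsum_le_tsum fun k => LS_R A ρ C z N T k
  · exact ENNReal.tsum_le_tsum fun k => LS_N A ρ C z N T k
  · exact ENNReal.tsum_le_tsum fun k => LS_M A ρ C z hz N T k
  · exact ENNReal.tsum_le_tsum fun k => LS_I A ρ C z hz N T k

end PC

end Pool.Agent.HEP
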