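import Pool.Agent.PLY.Ch.Defs
import Pool.Agent.HEP.ChChn

/-!
Project PLY, chain step: types of the strands, sums over the strands of one type.

A strand `W` is cut at its beginning at the zone `r` (near part `P`) and at its end at the zone `r'` (near part `Q`, read from the end);
`N0` = smallest height of a regular middle word. Types: R (the zones are crossed by two different blocks `c`, `c'` and the word between them has
height `≥ N0`), M1, M2 (word between them of height `< N0`, `c` resp. `c'` is a giant, height `≥ 2 ^ m`), I (both zones are crossed by one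
block, a giant). Kinds of legs: `none` = regular (ends at the first renewal over the zone), `some (false, a)` = near part of class `a`,
`some (true, a)` = near part of class `a` with its giant.
-/

namespace Pool.Agent.HEP

open scoped ENNReal
open Finset

namespace PC

open Ch

/-- Type R, height `t`. -/
def InR (A : Alph) (r r' N0 t : ℕ) (W : List A.B) : Prop :=
  A.h W = t ∧ ∃ (P Q : List A.B) (c c' : A.B) (v : List A.B), P ++ c :: (v ++ c' :: Q.reverse) = W ∧
    (A.h P ≤ r ∧ r < A.h P + A.ht c) ∧ (A.h Q ≤ r' ∧ r' < A.h Q + A.ht c') ∧ N0 ≤ A.h v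

/-- Type M1, near part of class `a`. -/
def InM (A : Alph) (r r' N0 m a : ℕ) (W : List A.B) : Prop :=
  ∃ (P Q : List A.B) (c c' : A.B) (v : List A.B), P ++ c :: (v ++ c' :: Q.reverse) = W ∧
    ((A.h P ≤ r ∧ Nat.size (A.h P) = a) ∧ 2 ^ m ≤ A.ht c) ∧ (A.h Q ≤ r' ∧ r' < A.h Q + A.ht c') ∧ A.h v ≤ N0

/-- Type M2, near part of class `b`. -/
def InN (A : Alph) (r r' N0 m b : ℕ) (W : List A.B) : Prop :=
  ∃ (P Q : List A.B) (c c' : A.B) (v : List A.B), P ++ c :: (v ++ c' :: Q.reverse) = W ∧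
    (A.h P ≤ r ∧ r < A.h P + A.ht c) ∧ ((A.h Q ≤ r' ∧ Nat.size (A.h Q) = b) ∧ 2 ^ m ≤ A.ht c') ∧ A.h v ≤ N0

/-- Type I, near parts of the classes `a`, `b`, block of height at least `2 ^ m`. -/
def InI (A : Alph) (r r' m a b : ℕ) (W : List A.B) : Prop :=
  ∃ (P Q : List A.B) (c : A.B), P ++ c :: Q.reverse = W ∧ (A.h P ≤ r ∧ Nat.size (A.h P) = a) ∧
    (A.h Q ≤ r' ∧ Nat.size (A.h Q) = b) ∧ 2 ^ m ≤ A.ht c

/-- Weak weight of a near part of class `a`. -/
noncomputable def wk (A : Alph) (r a : ℕ) (l : List A.B) : ℝ≥0∞ := ind (A.h l ≤ r ∧ Nat.size (A.h l) = a) * A.w l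

/-- Strong weight: near part of class `a` followed by a giant block. -/
noncomputable def sg (A : Alph) (r m a : ℕ) (l : List A.B) : ℝ≥0∞ :=
  ind (∃ (P : List A.B) (c : A.B), P ++ [c] = l ∧ (A.h P ≤ r ∧ Nat.size (A.h P) = a) ∧ 2 ^ m ≤ A.ht c) * A.w l

/-- Weights of the kinds of legs. -/
noncomputable def WW (A : Alph) (r m : ℕ) : Option (Bool × ℕ) → List A.B → ℝ≥0∞
  | none => A.rg r
  | some (false, a) => wk A r a
  | some (true, a) => sg A r m a

/-- A function on words which does not increase if the word is extended. -/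
def PA {β : Type*} (g : List β → ℝ≥0∞) : Prop := ∀ l l', g (l ++ l') ≤ g l

theorem tsum_exists {ι κ : Type*} (f : κ → ι) (q : κ → Prop) (F : ι → ℝ≥0∞) :
    ∑' x, ind (∃ p, f p = x ∧ q p) * F x ≤ ∑' p, ind (q p) * F (f p) := by
  classical
  have h : ∀ x : {x // ∃ p, f p = x ∧ q p}, ∃ p, f p = x.1 ∧ q p := fun x => x.2
  choose p hp using h
  have hinj : Function.Injective p := by
    intro x y e
    apply Subtype.ext
    rw [← (hp x).1, ← (hp y).1, e]
  have e1 : ∑' x, ind (∃ p, f p = x ∧ q p) * F x = ∑' x : {x // ∃ p, f p = x ∧ q p}, F x.1 := by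
    have := tsum_subtype {x | ∃ p, f p = x ∧ q p} F
    refine Eq.trans ?_ this.symm
    refine tsum_congr fun x => ?_
    by_cases hx : ∃ p, f p = x ∧ q p
    · rw [ind_true hx, one_mul, Set.indicator_of_mem (by exact hx)]
    · rw [ind_false hx, zero_mul, Set.indicator_of_notMem (by exact hx)]
  rw [e1]
  refine le_trans (le_of_eq (tsum_congr fun x => ?_))
    (ENNReal.tsum_comp_le_tsum_of_injective hinj (fun p => ind (q p) * F (f p)))
  rw [ind_true (hp x).2, one_mul, (hp x).1]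

/-- Words of the form `P ++ [c]`. -/
theorem tsum_snoc {A : Alph} (q : List A.B → A.B → Prop) (G : List A.B → ℝ≥0∞) :
    ∑' p : List A.B × A.B, ind (q p.1 p.2) * (A.w (p.1 ++ [p.2]) * G (p.1 ++ [p.2])) ≤
      ∑' W, (ind (∃ (P : List A.B) (c : A.B), P ++ [c] = W ∧ q P c) * A.w W) * G W := by
  have hinj : Function.Injective (fun p : List A.B × A.B => p.1 ++ [p.2]) := by
    rintro ⟨P, c⟩ ⟨P', c'⟩ e
    simp only at e
    have := List.append_inj' e rfl
    simp only [List.cons.injEq, and_true] at this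
    rw [this.1, this.2]
  refine le_trans (ENNReal.tsum_le_tsum fun p => ?_)
    (ENNReal.tsum_comp_le_tsum_of_injective hinj
      (fun W => (ind (∃ (P : List A.B) (c : A.B), P ++ [c] = W ∧ q P c) * A.w W) * G W))
  rw [mul_assoc]
  refine mul_le_mul' (ind_mono fun h => ⟨p.1, p.2, rfl, h⟩) le_rfl

/-- The words of height at most `N` have mass `U N`. -/
theorem tsum_h_le (A : Alph) (N : ℕ) : ∑' v, ind (A.h v ≤ N) * A.w v = A.U N := by
  unfold Alph.U Alph.b
  rw [← Summable.tsum_finsetSum (fun i _ => ENNReal.summable)]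
  refine tsum_congr fun v => ?_
  rw [← Finset.sum_mul, ← ind_le_eq_sum]

/-- General form of the decomposition with two different blocks. -/
theorem dec2 {A : Alph} (q : List A.B → A.B → Prop) (q' : List A.B → A.B → Prop) (p : List A.B → Prop)
    {T : List A.B → Prop} (X : ℝ≥0∞)
    (hX : ∀ (P : List A.B) (c : A.B) (Q : List A.B) (c' : A.B), ∑' v, ind (p v ∧ T (P ++ c :: (v ++ c' :: Q.reverse))) * A.w v ≤ X)
    {g g' : List A.B → ℝ≥0∞} (hg : PA g) (hg' : PA g') :
    ∑' W, ind (T W ∧ ∃ (P Q : List A.B) (c c' : A.B) (v : List A.B), P ++ c :: (v ++ c' :: Q.reverse) = W ∧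
      q P c ∧ q' Q c' ∧ p v) * (A.w W * (g W * g' W.reverse)) ≤
      X * ((∑' W, (ind (∃ (P : List A.B) (c : A.B), P ++ [c] = W ∧ q P c) * A.w W) * g W) *
        (∑' W, (ind (∃ (P : List A.B) (c : A.B), P ++ [c] = W ∧ q' P c) * A.w W) * g' W)) := by
  have h1 := tsum_exists
    (fun y : (List A.B × A.B) × (List A.B × A.B) × List A.B => y.1.1 ++ y.1.2 :: (y.2.2 ++ y.2.1.2 :: y.2.1.1.reverse))
    (fun y => (T (y.1.1 ++ y.1.2 :: (y.2.2 ++ y.2.1.2 :: y.2.1.1.reverse)) ∧ p y.2.2) ∧ q y.1.1 y.1.2 ∧ q' y.2.1.1 y.2.1.2)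
    (fun W => A.w W * (g W * g' W.reverse))
  refine le_trans (ENNReal.tsum_le_tsum fun W => ?_) (h1.trans ?_)
  · refine mul_le_mul' (ind_mono ?_) le_rfl
    rintro ⟨h2, P, Q, c, c', v, h3, h4, h5, h6⟩
    exact ⟨((P, c), (Q, c'), v), h3, ⟨by simp only; rw [h3]; exact h2, h6⟩, h4, h5⟩
  calc ∑' y : (List A.B × A.B) × (List A.B × A.B) × List A.B,
        ind ((T (y.1.1 ++ y.1.2 :: (y.2.2 ++ y.2.1.2 :: y.2.1.1.reverse)) ∧ p y.2.2) ∧ q y.1.1 y.1.2 ∧
          q' y.2.1.1 y.2.1.2) * (A.w (y.1.1 ++ y.1.2 :: (y.2.2 ++ y.2.1.2 :: y.2.1.1.reverse)) *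
        (g (y.1.1 ++ y.1.2 :: (y.2.2 ++ y.2.1.2 :: y.2.1.1.reverse)) *
          g' (y.1.1 ++ y.1.2 :: (y.2.2 ++ y.2.1.2 :: y.2.1.1.reverse)).reverse))
      ≤ ∑' y : (List A.B × A.B) × (List A.B × A.B) × List A.B,
        (ind (q y.1.1 y.1.2) * (A.w (y.1.1 ++ [y.1.2]) * g (y.1.1 ++ [y.1.2]))) *
        ((ind (q' y.2.1.1 y.2.1.2) * (A.w (y.2.1.1 ++ [y.2.1.2]) * g' (y.2.1.1 ++ [y.2.1.2]))) *
        (ind (p y.2.2 ∧ T (y.1.1 ++ y.1.2 :: (y.2.2 ++ y.2.1.2 :: y.2.1.1.reverse))) * A.w y.2.2)) := by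
        refine ENNReal.tsum_le_tsum ?_
        rintro ⟨⟨P, c⟩, ⟨Q, c'⟩, v⟩
        simp only
        by_cases h2 : (T (P ++ c :: (v ++ c' :: Q.reverse)) ∧ p v) ∧ q P c ∧ q' Q c'
        · rw [ind_true h2, ind_true h2.2.1, ind_true h2.2.2, ind_true ⟨h2.1.2, h2.1.1⟩, one_mul, one_mul, one_mul, one_mul]
          have h5 : g (P ++ c :: (v ++ c' :: Q.reverse)) ≤ g (P ++ [c]) := by
            have e : P ++ c :: (v ++ c' :: Q.reverse) = (P ++ [c]) ++ (v ++ c' :: Q.reverse) := by simp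
            rw [e]; exact hg _ _
          have h6 : g' (P ++ c :: (v ++ c' :: Q.reverse)).reverse ≤ g' (Q ++ [c']) := by
            have e : (P ++ c :: (v ++ c' :: Q.reverse)).reverse = (Q ++ [c']) ++ (v.reverse ++ c :: P.reverse) := by simp
            rw [e]; exact hg' _ _
          calc _ ≤ A.w (P ++ c :: (v ++ c' :: Q.reverse)) * (g (P ++ [c]) * g' (Q ++ [c'])) :=
                mul_le_mul' le_rfl (mul_le_mul' h5 h6)
            _ = _ := by
                simp only [A.w_append, A.w_cons, A.w_reverse, A.w_nil]; ring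
        · rw [ind_false h2, zero_mul]; exact bot_le
    _ = ∑' x : List A.B × A.B, ∑' x' : List A.B × A.B, ((ind (q x.1 x.2) * (A.w (x.1 ++ [x.2]) * g (x.1 ++ [x.2]))) *
        (ind (q' x'.1 x'.2) * (A.w (x'.1 ++ [x'.2]) * g' (x'.1 ++ [x'.2])))) *
        ∑' v, (ind (p v ∧ T (x.1 ++ x.2 :: (v ++ x'.2 :: x'.1.reverse))) * A.w v) := by
        rw [ENNReal.tsum_prod']
        refine tsum_congr fun x => ?_
        rw [ENNReal.tsum_prod']
        refine tsum_congr fun x' => ?_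
        rw [← ENNReal.tsum_mul_left]
        refine tsum_congr fun v => ?_
        simp only
        ring
    _ ≤ ∑' x : List A.B × A.B, ∑' x' : List A.B × A.B, ((ind (q x.1 x.2) * (A.w (x.1 ++ [x.2]) * g (x.1 ++ [x.2]))) *
        (ind (q' x'.1 x'.2) * (A.w (x'.1 ++ [x'.2]) * g' (x'.1 ++ [x'.2])))) * X :=
        ENNReal.tsum_le_tsum fun x => ENNReal.tsum_le_tsum fun x' => mul_le_mul' le_rfl (hX _ _ _ _)
    _ = X * ((∑' x : List A.B × A.B, ind (q x.1 x.2) * (A.w (x.1 ++ [x.2]) * g (x.1 ++ [x.2]))) *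
        (∑' x' : List A.B × A.B, ind (q' x'.1 x'.2) * (A.w (x'.1 ++ [x'.2]) * g' (x'.1 ++ [x'.2])))) := by
        rw [← ENNReal.tsum_mul_right, ← ENNReal.tsum_mul_left]
        refine tsum_congr fun x => ?_
        rw [← ENNReal.tsum_mul_left, ← ENNReal.tsum_mul_left]
        refine tsum_congr fun x' => ?_
        ring
    _ ≤ _ := mul_le_mul' le_rfl (mul_le_mul' (tsum_snoc q g) (tsum_snoc q' g'))

/-- Sum over the strands of type R. -/
theorem decR {A : Alph} (hb : Antitone A.b) (r r' N0 t : ℕ) {g g' : List A.B → ℝ≥0∞} (hg : PA g) (hg' : PA g') :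
    ∑' W, ind (InR A r r' N0 t W) * (A.w W * (g W * g' W.reverse)) ≤
      A.b N0 * ((∑' P, A.rg r P * g P) * (∑' Q, A.rg r' Q * g' Q)) := by
  refine dec2 (fun P c => A.h P ≤ r ∧ r < A.h P + A.ht c) (fun P c => A.h P ≤ r' ∧ r' < A.h P + A.ht c)
    (fun v => N0 ≤ A.h v) (T := fun W => A.h W = t) (A.b N0) ?_ hg hg'
  intro P c Q c'
  set s := t - A.h P - A.ht c - A.ht c' - A.h Q with hs
  by_cases h0 : N0 ≤ s
  · refine le_trans (ENNReal.tsum_le_tsum fun v => mul_le_mul' (ind_mono (q := A.h v = s) ?_) le_rfl) (hb h0)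
    rintro ⟨-, h2⟩
    rw [A.h_append, A.h_cons, A.h_append, A.h_cons, A.h_reverse] at h2
    omega
  · refine le_trans (le_of_eq (b := 0) ?_) bot_le
    rw [ENNReal.tsum_eq_zero]
    intro v
    rw [ind_false, zero_mul]
    rintro ⟨h1, h2⟩
    rw [A.h_append, A.h_cons, A.h_append, A.h_cons, A.h_reverse] at h2
    omega

/-- Sum over the strands of type M1. -/
theorem decM {A : Alph} (r r' N0 m a : ℕ) {g g' : List A.B → ℝ≥0∞} (hg : PA g) (hg' : PA g') :
    ∑' W, ind (InM A r r' N0 m a W) * (A.w W * (g W * g' W.reverse)) ≤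
      A.U N0 * ((∑' P, sg A r m a P * g P) * (∑' Q, A.rg r' Q * g' Q)) := by
  refine le_trans (ENNReal.tsum_le_tsum fun W => mul_le_mul' (ind_mono ?_) le_rfl)
    (dec2 (fun P c => (A.h P ≤ r ∧ Nat.size (A.h P) = a) ∧ 2 ^ m ≤ A.ht c) (fun P c => A.h P ≤ r' ∧ r' < A.h P + A.ht c)
    (fun v => A.h v ≤ N0) (T := fun _ => True) (A.U N0) ?_ hg hg')
  · intro h
    exact ⟨trivial, h⟩
  · intro P c Q c'
    rw [← tsum_h_le A N0]
    exact ENNReal.tsum_le_tsum fun v => mul_le_mul' (ind_mono fun h => h.1) le_rfl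

/-- Sum over the strands of type M2. -/
theorem decN {A : Alph} (r r' N0 m b : ℕ) {g g' : List A.B → ℝ≥0∞} (hg : PA g) (hg' : PA g') :
    ∑' W, ind (InN A r r' N0 m b W) * (A.w W * (g W * g' W.reverse)) ≤
      A.U N0 * ((∑' P, A.rg r P * g P) * (∑' Q, sg A r' m b Q * g' Q)) := by
  refine le_trans (ENNReal.tsum_le_tsum fun W => mul_le_mul' (ind_mono ?_) le_rfl)
    (dec2 (fun P c => A.h P ≤ r ∧ r < A.h P + A.ht c) (fun P c => (A.h P ≤ r' ∧ Nat.size (A.h P) = b) ∧ 2 ^ m ≤ A.ht c)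
    (fun v => A.h v ≤ N0) (T := fun _ => True) (A.U N0) ?_ hg hg')
  · intro h
    exact ⟨trivial, h⟩
  · intro P c Q c'
    rw [← tsum_h_le A N0]
    exact ENNReal.tsum_le_tsum fun v => mul_le_mul' (ind_mono fun h => h.1) le_rfl

/-- Sum over the strands of type I, the giant block is used at one of the two ends. -/
theorem decI {A : Alph} (r r' m a b : ℕ) {g g' : List A.B → ℝ≥0∞} (hg : PA g) (hg' : PA g') (e : Bool) :
    ∑' W, ind (InI A r r' m a b W) * (A.w W * (g W * g' W.reverse)) ≤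
      (∑' P, WW A r m (some (e, a)) P * g P) * (∑' Q, WW A r' m (some (!e, b)) Q * g' Q) := by
  have h1 := tsum_exists
    (fun p : List A.B × List A.B × A.B => p.1 ++ p.2.2 :: p.2.1.reverse)
    (fun p => (A.h p.1 ≤ r ∧ Nat.size (A.h p.1) = a) ∧ (A.h p.2.1 ≤ r' ∧ Nat.size (A.h p.2.1) = b) ∧
      2 ^ m ≤ A.ht p.2.2)
    (fun W => A.w W * (g W * g' W.reverse))
  refine le_trans (ENNReal.tsum_le_tsum fun W => ?_) (h1.trans ?_)
  · refine mul_le_mul' (ind_mono ?_) le_rfl
    rintro ⟨P, Q, c, h3, h4⟩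
    exact ⟨(P, Q, c), h3, h4⟩
  -- the strong side as a sum over near part and giant
  have hs : ∀ (r a : ℕ) (G : List A.B → ℝ≥0∞),
      ∑' p : List A.B × A.B, ind ((A.h p.1 ≤ r ∧ Nat.size (A.h p.1) = a) ∧ 2 ^ m ≤ A.ht p.2) *
        (A.w (p.1 ++ [p.2]) * G (p.1 ++ [p.2])) ≤ ∑' W, sg A r m a W * G W := by
    intro r a G
    have hinj : Function.Injective (fun p : List A.B × A.B => p.1 ++ [p.2]) := by
      rintro ⟨P, c⟩ ⟨P', c'⟩ e
      simp only at e
      have := List.append_inj' e rfl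
      simp only [List.cons.injEq, and_true] at this
      rw [this.1, this.2]
    refine le_trans (ENNReal.tsum_le_tsum fun p => ?_)
      (ENNReal.tsum_comp_le_tsum_of_injective hinj (fun W => sg A r m a W * G W))
    simp only [sg]
    rw [mul_assoc]
    refine mul_le_mul' (ind_mono fun h => ⟨p.1, p.2, rfl, h⟩) le_rfl
  cases e with
  | true =>
    have hW : WW A r m (some (true, a)) = sg A r m a := rfl
    have hW' : WW A r' m (some (!true, b)) = wk A r' b := rfl
    rw [hW, hW']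
    calc ∑' p : List A.B × List A.B × A.B, ind ((A.h p.1 ≤ r ∧ Nat.size (A.h p.1) = a) ∧
          (A.h p.2.1 ≤ r' ∧ Nat.size (A.h p.2.1) = b) ∧ 2 ^ m ≤ A.ht p.2.2) *
          (A.w (p.1 ++ p.2.2 :: p.2.1.reverse) * (g (p.1 ++ p.2.2 :: p.2.1.reverse) *
            g' (p.1 ++ p.2.2 :: p.2.1.reverse).reverse))
        ≤ ∑' p : List A.B × List A.B × A.B, (ind ((A.h p.1 ≤ r ∧ Nat.size (A.h p.1) = a) ∧ 2 ^ m ≤ A.ht p.2.2) *
          (A.w (p.1 ++ [p.2.2]) * g (p.1 ++ [p.2.2]))) * (wk A r' b p.2.1 * g' p.2.1) := by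
          refine ENNReal.tsum_le_tsum ?_
          rintro ⟨P, Q, c⟩
          simp only
          by_cases h3 : (A.h P ≤ r ∧ Nat.size (A.h P) = a) ∧ (A.h Q ≤ r' ∧ Nat.size (A.h Q) = b) ∧ 2 ^ m ≤ A.ht c
          · rw [ind_true h3, ind_true ⟨h3.1, h3.2.2⟩, one_mul, one_mul]
            simp only [wk]
            rw [ind_true h3.2.1, one_mul]
            have h5 : g (P ++ c :: Q.reverse) ≤ g (P ++ [c]) := by
              have e : P ++ c :: Q.reverse = (P ++ [c]) ++ Q.reverse := by simp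
              rw [e]; exact hg _ _
            have h6 : g' (P ++ c :: Q.reverse).reverse ≤ g' Q := by
              have e : (P ++ c :: Q.reverse).reverse = Q ++ (c :: P.reverse) := by simp
              rw [e]; exact hg' _ _
            calc _ ≤ A.w (P ++ c :: Q.reverse) * (g (P ++ [c]) * g' Q) :=
                  mul_le_mul' le_rfl (mul_le_mul' h5 h6)
              _ = _ := by
                  rw [A.w_append, A.w_cons, A.w_reverse, A.w_append, A.w_cons, A.w_nil]; ring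
          · rw [ind_false h3, zero_mul]; exact bot_le
      _ = (∑' p : List A.B × A.B, ind ((A.h p.1 ≤ r ∧ Nat.size (A.h p.1) = a) ∧ 2 ^ m ≤ A.ht p.2) *
          (A.w (p.1 ++ [p.2]) * g (p.1 ++ [p.2]))) * ∑' Q, wk A r' b Q * g' Q := by
          rw [ENNReal.tsum_prod', ENNReal.tsum_prod', ← ENNReal.tsum_mul_right]
          refine tsum_congr fun P => ?_
          rw [ENNReal.tsum_prod', ENNReal.tsum_comm, ← ENNReal.tsum_mul_right]
          refine tsum_congr fun c => ?_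
          rw [← ENNReal.tsum_mul_left]
      _ ≤ _ := mul_le_mul' (hs r a g) le_rfl
  | false =>
    have hW : WW A r m (some (false, a)) = wk A r a := rfl
    have hW' : WW A r' m (some (!false, b)) = sg A r' m b := rfl
    rw [hW, hW']
    calc ∑' p : List A.B × List A.B × A.B, ind ((A.h p.1 ≤ r ∧ Nat.size (A.h p.1) = a) ∧
          (A.h p.2.1 ≤ r' ∧ Nat.size (A.h p.2.1) = b) ∧ 2 ^ m ≤ A.ht p.2.2) *
          (A.w (p.1 ++ p.2.2 :: p.2.1.reverse) * (g (p.1 ++ p.2.2 :: p.2.1.reverse) *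
            g' (p.1 ++ p.2.2 :: p.2.1.reverse).reverse))
        ≤ ∑' p : List A.B × List A.B × A.B, (wk A r a p.1 * g p.1) *
          (ind ((A.h p.2.1 ≤ r' ∧ Nat.size (A.h p.2.1) = b) ∧ 2 ^ m ≤ A.ht p.2.2) *
          (A.w (p.2.1 ++ [p.2.2]) * g' (p.2.1 ++ [p.2.2]))) := by
          refine ENNReal.tsum_le_tsum ?_
          rintro ⟨P, Q, c⟩
          simp only
          by_cases h3 : (A.h P ≤ r ∧ Nat.size (A.h P) = a) ∧ (A.h Q ≤ r' ∧ Nat.size (A.h Q) = b) ∧ 2 ^ m ≤ A.ht c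
          · rw [ind_true h3, ind_true (p := (A.h Q ≤ r' ∧ Nat.size (A.h Q) = b) ∧ 2 ^ m ≤ A.ht c) h3.2, one_mul, one_mul]
            simp only [wk]
            rw [ind_true h3.1, one_mul]
            have h5 : g (P ++ c :: Q.reverse) ≤ g P := hg _ _
            have h6 : g' (P ++ c :: Q.reverse).reverse ≤ g' (Q ++ [c]) := by
              have e : (P ++ c :: Q.reverse).reverse = (Q ++ [c]) ++ P.reverse := by simp
              rw [e]; exact hg' _ _
            calc _ ≤ A.w (P ++ c :: Q.reverse) * (g P * g' (Q ++ [c])) :=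
                  mul_le_mul' le_rfl (mul_le_mul' h5 h6)
              _ = _ := by
                  rw [A.w_append, A.w_cons, A.w_reverse, A.w_append, A.w_cons, A.w_nil]; ring
          · rw [ind_false h3, zero_mul]; exact bot_le
      _ = (∑' P, wk A r a P * g P) * (∑' p : List A.B × A.B, ind ((A.h p.1 ≤ r' ∧ Nat.size (A.h p.1) = b) ∧
          2 ^ m ≤ A.ht p.2) * (A.w (p.1 ++ [p.2]) * g' (p.1 ++ [p.2]))) := by
          rw [ENNReal.tsum_prod', ← ENNReal.tsum_mul_right]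
          refine tsum_congr fun P => ?_
          rw [← ENNReal.tsum_mul_left]
      _ ≤ _ := mul_le_mul' le_rfl (hs r' b g')

end PC

end Pool.Agent.HEP
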