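import Pool.Agent.PLY.Ch.Fld

/-!
Project PLY, chain step: the mass of a skeleton is at most the geometric mean of the two product bounds, and this has product form `EV`.
-/

namespace Pool.Agent.HEP

open scoped ENNReal
open Finset

namespace PC

open Ch

/-- Square root. -/
noncomputable def sq (x : ℝ≥0∞) : ℝ≥0∞ := x ^ (1 / 2 : ℝ)

theorem sq_mul_sq (x : ℝ≥0∞) : sq x * sq x = x := by
  unfold sq
  rw [← ENNReal.rpow_add_of_nonneg _ _ (by norm_num) (by norm_num)]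
  norm_num

theorem sq_mul (x y : ℝ≥0∞) : sq (x * y) = sq x * sq y := by
  unfold sq
  exact ENNReal.mul_rpow_of_nonneg _ _ (by norm_num)

theorem sq_mono {x y : ℝ≥0∞} (h : x ≤ y) : sq x ≤ sq y := by
  unfold sq
  exact ENNReal.rpow_le_rpow h (by norm_num)

theorem sq_one : sq 1 = 1 := by
  unfold sq
  exact ENNReal.one_rpow _

theorem sq_pow (x : ℝ≥0∞) (n : ℕ) : sq (x ^ n) = sq x ^ n := by
  induction n with
  | zero => simp [sq_one]
  | succ n ih => rw [pow_succ, sq_mul, ih, pow_succ]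

theorem sq_inv (x : ℝ≥0∞) : sq x⁻¹ = (sq x)⁻¹ := by
  unfold sq
  exact ENNReal.inv_rpow _ _

theorem le_of_sq {a b : ℝ≥0∞} (h : a * a ≤ b * b) : a ≤ b := by
  by_contra hlt
  push Not at hlt
  exact absurd (ENNReal.mul_lt_mul hlt hlt) (not_lt.2 h)

/-- Weight of one side of a strand at a fold. -/
noncomputable def ss (A : Alph) (ρ : ℝ≥0∞) (r m : ℕ) (f g : Bool) (a : ℕ) : ℝ≥0∞ := sq (qq A ρ r m f g a)

theorem ss_mul (A : Alph) (ρ : ℝ≥0∞) (r m : ℕ) (f g : Bool) (a : ℕ) :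
    ss A ρ r m f g a * ss A ρ r m f g a = qq A ρ r m f g a := sq_mul_sq _

/-- The value of a skeleton behind an end `(f, g, b)`. -/
noncomputable def EV (A : Alph) (ρ C : ℝ≥0∞) (z : ℕ) : List Lt → Bool → Bool → ℕ → ℝ≥0∞
  | [], _, _, _ => 1
  | y :: σ, f, g, b => mid A z y * (C * (ss A ρ (zn z y.2.2.1) (y.2.2.1 - 2) f g b *
      ss A ρ (zn z y.2.2.1) (y.2.2.1 - 2) y.1 y.2.1 y.2.2.2.1)) * EV A ρ C z σ y.2.1 y.1 y.2.2.2.2

/-- Mass of the strong near parts. -/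
theorem tsum_sg (A : Alph) (r m a : ℕ) : ∑' l, sg A r m a l ≤ (∑' l, wk A r a l) * A.Lam (2 ^ m - 1) := by
  have h1 := tsum_exists (fun p : List A.B × A.B => p.1 ++ [p.2])
    (fun p => (A.h p.1 ≤ r ∧ Nat.size (A.h p.1) = a) ∧ 2 ^ m ≤ A.ht p.2) A.w
  refine le_trans (ENNReal.tsum_le_tsum fun W => ?_) (h1.trans ?_)
  · simp only [sg]
    refine mul_le_mul' (ind_mono ?_) le_rfl
    rintro ⟨P, c, h2⟩
    exact ⟨(P, c), h2⟩
  · rw [ENNReal.tsum_prod', ← ENNReal.tsum_mul_right]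
    refine ENNReal.tsum_le_tsum fun P => ?_
    unfold Alph.Lam
    rw [← ENNReal.tsum_mul_left]
    refine ENNReal.tsum_le_tsum fun c => ?_
    simp only [wk]
    rw [A.w_append, A.w_cons, A.w_nil, mul_one]
    by_cases h : (A.h P ≤ r ∧ Nat.size (A.h P) = a) ∧ 2 ^ m ≤ A.ht c
    · have hpos : 0 < 2 ^ m := by positivity
      rw [ind_true h, ind_true h.1, ind_true (p := 2 ^ m - 1 < A.ht c) (by omega)]
      apply le_of_eq; ring
    · rw [ind_false h, zero_mul]; exact bot_le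

theorem tsum_wk_r0 (A : Alph) (a : ℕ) : ∑' l, wk A 0 a l ≤ 1 := by
  calc ∑' l, wk A 0 a l ≤ ∑' l : List A.B, ind (l = []) * A.w l := by
        refine ENNReal.tsum_le_tsum fun l => ?_
        unfold wk
        refine mul_le_mul' (ind_mono ?_) le_rfl
        rintro ⟨h, -⟩
        exact A.h_eq_zero.1 (Nat.le_zero.1 h)
    _ = 1 := by
        rw [tsum_eq_single ([] : List A.B)]
        · rw [ind_true rfl, A.w_nil, one_mul]
        · intro u hu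
          rw [ind_false hu, zero_mul]

theorem tsum_WW0 (A : Alph) (m : ℕ) (κ : Option (Bool × ℕ)) : ∑' l, WW A 0 m κ l ≤ 1 := by
  cases κ with
  | none => exact tsum_rg A 0
  | some p =>
    obtain ⟨e, a⟩ := p
    cases e with
    | false => exact tsum_wk_r0 A a
    | true =>
      refine (tsum_sg A 0 m a).trans ?_
      calc (∑' l, wk A 0 a l) * A.Lam (2 ^ m - 1) ≤ 1 * 1 :=
            mul_le_mul' (tsum_wk_r0 A a) (A.Lam_le_one _)
        _ = 1 := one_mul 1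

theorem nT_le {T : ℕ} {z k' : ℕ} {y : Lt} (h : Loc z k' T y) : nT T y ≤ 2 ^ (y.2.2.1 + 1) := by
  obtain ⟨f, f', k, t, w⟩ := y
  cases f with
  | false =>
    cases f' with
    | false => exact h.2.2.1.le
    | true => exact min_le_right _ _
  | true =>
    cases f' with
    | false => exact min_le_right _ _
    | true => exact min_le_right _ _

theorem Loc_st {T : ℕ} {z k' : ℕ} {y : Lt} (h : Loc z k' T y) (h1 : y.1 = true) : y.2.2.2.1 ≤ y.2.2.1 - z := by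
  obtain ⟨f, f', k, t, w⟩ := y
  simp only at h1
  subst h1
  cases f' with
  | false => exact h.2.2.2
  | true => exact h.2.2.1

theorem Loc_en {T : ℕ} {z k' : ℕ} {y : Lt} (h : Loc z k' T y) (h1 : y.2.1 = true) : y.2.2.2.2 ≤ k' - z := by
  obtain ⟨f, f', k, t, w⟩ := y
  simp only at h1
  subst h1
  cases f with
  | false => exact h.2.2.2
  | true => exact h.2.2.2

theorem zn_succ (z k : ℕ) : zn z k + 1 = 2 ^ (k - z) := by
  unfold zn
  have : 0 < 2 ^ (k - z) := by positivity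
  omega

variable {S : Sys} {K ρ : ℝ≥0∞}

/-- **The two product bounds.** -/
theorem De_le (H : S.Ply K ρ) (hK : 1 ≤ K) (hρ : ρ ≤ 1) {z : ℕ} (hz : 2 ≤ z) (σ : List Lt) : ∀ (x : Lt) (T : ℕ),
    Adm z σ T → T ≤ 2 ^ (x.2.2.1 + 1) → z ≤ x.2.2.1 → (x.2.1 = true → x.2.2.2.2 ≤ hd z σ - z) →
    De S z true σ (WW S.toAlph (zn z (hd z σ)) (x.2.2.1 - 2) (enK true x)) *
      De S z false σ (WW S.toAlph (zn z (hd z σ)) (x.2.2.1 - 2) (enK false x)) ≤
      EV S.toAlph ρ (8 * K ^ 2) z σ x.2.1 x.1 x.2.2.2.2 * EV S.toAlph ρ (8 * K ^ 2) z σ x.2.1 x.1 x.2.2.2.2 := by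
  induction σ with
  | nil =>
    intro x T _ _ _ _
    simp only [De, EV]
    have e : zn z (hd z []) = 0 := by simp [zn, hd]
    rw [e]
    exact mul_le_mul' (tsum_WW0 _ _ _) (tsum_WW0 _ _ _)
  | cons y σ ih =>
    intro x T hA hT hzx hxb
    obtain ⟨hL, hA'⟩ := hA
    have hsc := Loc_sc hL
    have hk : y.2.2.1 ≤ x.2.2.1 := Adm_hd (σ := y :: σ) ⟨hL, hA'⟩ hT hzx
    have h1 := ih y (nT T y) hA' (nT_le hL) hsc.2 (Loc_en hL)
    have hr : zn z y.2.2.1 + 1 = 2 ^ (y.2.2.1 - z) := zn_succ z _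
    have h2 := fold_LR H hK (r := zn z y.2.2.1) (m := y.2.2.1 - 2) (m' := x.2.2.1 - 2)
      (by rw [hr]; exact Nat.pow_le_pow_right (by norm_num) (by omega)) (by omega) x y
      (fun h => by
        rw [hr]
        exact Nat.pow_le_pow_right (by norm_num) (hxb h))
      (fun h => by
        rw [hr]
        exact Nat.pow_le_pow_right (by norm_num) (Loc_st hL h)) hρ
    simp only [De, EV]
    have e : hd z (y :: σ) = y.2.2.1 := rfl
    rw [e]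
    set C := 8 * K ^ 2 with hC
    set F1 := FF S (WW S.toAlph (zn z y.2.2.1) (x.2.2.1 - 2) (enK true x)) (WW S.toAlph (zn z y.2.2.1) (y.2.2.1 - 2) (stK true y))
    set F2 := FF S (WW S.toAlph (zn z y.2.2.1) (x.2.2.1 - 2) (enK false x)) (WW S.toAlph (zn z y.2.2.1) (y.2.2.1 - 2) (stK false y))
    set D1 := De S z true σ (WW S.toAlph (zn z (hd z σ)) (y.2.2.1 - 2) (enK true y))
    set D2 := De S z false σ (WW S.toAlph (zn z (hd z σ)) (y.2.2.1 - 2) (enK false y))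
    set E := EV S.toAlph ρ C z σ y.2.1 y.1 y.2.2.2.2
    set q1 := qq S.toAlph ρ (zn z y.2.2.1) (y.2.2.1 - 2) x.2.1 x.1 x.2.2.2.2 with hq1
    set q2 := qq S.toAlph ρ (zn z y.2.2.1) (y.2.2.1 - 2) y.1 y.2.1 y.2.2.2.1 with hq2
    have e1 := ss_mul S.toAlph ρ (zn z y.2.2.1) (y.2.2.1 - 2) x.2.1 x.1 x.2.2.2.2
    have e2 := ss_mul S.toAlph ρ (zn z y.2.2.1) (y.2.2.1 - 2) y.1 y.2.1 y.2.2.2.1
    rw [← hq1] at e1
    rw [← hq2] at e2
    set s1 := ss S.toAlph ρ (zn z y.2.2.1) (y.2.2.1 - 2) x.2.1 x.1 x.2.2.2.2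
    set s2 := ss S.toAlph ρ (zn z y.2.2.1) (y.2.2.1 - 2) y.1 y.2.1 y.2.2.2.1
    calc mid S.toAlph z y * (F1 * D1) * (mid S.toAlph z y * (F2 * D2))
        = (mid S.toAlph z y * mid S.toAlph z y) * ((F1 * F2) * (D1 * D2)) := by ring
      _ ≤ (mid S.toAlph z y * mid S.toAlph z y) * ((C ^ 2 * (q1 * q2)) * (E * E)) :=
          mul_le_mul' le_rfl (mul_le_mul' h2 h1)
      _ = (mid S.toAlph z y * mid S.toAlph z y) * ((C ^ 2 * ((s1 * s1) * (s2 * s2))) * (E * E)) := by rw [e1, e2]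
      _ = _ := by ring

/-- Mass of the start of the first strand. -/
theorem start_le (H : S.Ply K ρ) (hK : 1 ≤ K) (hρ : ρ ≤ 1) {z k k' T : ℕ} (hz : 2 ≤ z) {x : Lt} (hL : Loc z k' T x)
    (hk : x.2.2.1 = k) :
    (∑' P, WW S.toAlph (zn z k) (k - 2) (stK true x) P) * (∑' P, WW S.toAlph (zn z k) (k - 2) (stK false x) P) ≤
      (4 * K ^ 2 * S.U (2 ^ k)) * qq S.toAlph ρ (zn z k) (k - 2) x.1 x.2.1 x.2.2.2.1 := by
  obtain ⟨f, f', k1, a, b⟩ := x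
  simp only at hk
  subst hk
  have hzk : z ≤ k1 := (Loc_sc hL).2
  have hr : zn z k1 + 1 = 2 ^ (k1 - z) := zn_succ z _
  have hpk : 2 ^ (k1 - z) ≤ 2 ^ k1 := Nat.pow_le_pow_right (by norm_num) (by omega)
  have hUr : S.U (zn z k1) ≤ S.U (2 ^ k1) := S.U_mono (by omega)
  have hKK : (1 : ℝ≥0∞) ≤ 4 * K ^ 2 := by
    calc (1 : ℝ≥0∞) = 1 * 1 ^ 2 := by norm_num
      _ ≤ 4 * K ^ 2 := mul_le_mul' (by norm_num) (pow_le_pow_left' hK 2)
  have hUU : (1 : ℝ≥0∞) ≤ S.U (2 ^ k1) * (S.U (zn z k1))⁻¹ := by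
    calc (1 : ℝ≥0∞) = S.U (zn z k1) * (S.U (zn z k1))⁻¹ := (ENNReal.mul_inv_cancel (S.U_ne_zero _) (S.U_ne_top _)).symm
      _ ≤ _ := mul_le_mul' hUr le_rfl
  cases f with
  | false =>
    simp only [stK, WW, qq, Bool.false_eq_true, if_false, Bool.false_and, one_mul]
    calc (∑' P, S.rg (zn z k1) P) * (∑' P, S.rg (zn z k1) P) ≤ 1 * 1 := mul_le_mul' (tsum_rg _ _) (tsum_rg _ _)
      _ ≤ (4 * K ^ 2) * (S.U (2 ^ k1) * (S.U (zn z k1))⁻¹) := mul_le_mul' hKK hUU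
      _ = _ := by ring
  | true =>
    have ha : a ≤ k1 - z := Loc_st hL rfl
    have ha2 : a ≤ k1 - 2 := by omega
    -- the mass of near part and giant
    have hsg : ∑' P, sg S.toAlph (zn z k1) (k1 - 2) a P ≤ 2 * K * ρ ^ (k1 - 2 - a) := by
      calc ∑' P, sg S.toAlph (zn z k1) (k1 - 2) a P
          ≤ (∑' l, wk S.toAlph (zn z k1) a l) * S.Lam (2 ^ (k1 - 2) - 1) := tsum_sg _ _ _ _
        _ ≤ (K * ρ ^ (k1 - 2 - a) * (2 * S.U (2 ^ (k1 - 2) - 1))) * S.Lam (2 ^ (k1 - 2) - 1) :=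
            mul_le_mul' ((tsum_wk _ _ _).trans ((H.reg a (k1 - 2) ha2).trans (mul_le_mul' le_rfl (U_pred _ _)))) le_rfl
        _ = 2 * K * ρ ^ (k1 - 2 - a) * (S.U (2 ^ (k1 - 2) - 1) * S.Lam (2 ^ (k1 - 2) - 1)) := by ring
        _ ≤ 2 * K * ρ ^ (k1 - 2 - a) * 1 := mul_le_mul' le_rfl (S.U_mul_Lam _)
        _ = _ := mul_one _
    have hwk : ∑' l, wk S.toAlph (zn z k1) a l ≤ S.U (2 ^ k1) :=
      (tsum_wk _ _ _).trans (S.U_mono (Nat.pow_le_pow_right (by norm_num) (by omega)))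
    have hK2 : 2 * K ≤ 4 * K ^ 2 := by
      refine mul_le_mul' (by norm_num) ?_
      calc K = K * 1 := (mul_one K).symm
        _ ≤ K * K := mul_le_mul' le_rfl hK
        _ = K ^ 2 := by ring
    cases f' with
    | false =>
      simp only [stK, WW, qq, if_true, Bool.and_false, Bool.not_false, Bool.or_true, Bool.false_eq_true, if_false]
      calc _ ≤ (2 * K * ρ ^ (k1 - 2 - a)) * (2 * K * ρ ^ (k1 - 2 - a)) := mul_le_mul' hsg hsg
        _ ≤ (2 * K * ρ ^ (k1 - 2 - a)) * (2 * K * 1) := mul_le_mul' le_rfl (mul_le_mul' le_rfl (pow_le_one' hρ _))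
        _ = 4 * K ^ 2 * ρ ^ (k1 - 2 - a) * 1 := by ring
        _ ≤ 4 * K ^ 2 * ρ ^ (k1 - 2 - a) * (S.U (2 ^ k1) * (S.U (zn z k1))⁻¹) := mul_le_mul' le_rfl hUU
        _ = _ := by ring
    | true =>
      simp only [stK, WW, qq, if_true, Bool.and_true, Bool.not_true, Bool.or_false, mul_one]
      calc _ ≤ (2 * K * ρ ^ (k1 - 2 - a)) * S.U (2 ^ k1) := mul_le_mul' hsg hwk
        _ = (2 * K) * (S.U (2 ^ k1) * ρ ^ (k1 - 2 - a)) := by ring
        _ ≤ (4 * K ^ 2) * (S.U (2 ^ k1) * ρ ^ (k1 - 2 - a)) := mul_le_mul' hK2 le_rfl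
        _ = _ := by ring

/-- **The mass of a skeleton.** -/
theorem Mt_EV (H : S.Ply K ρ) (hK : 1 ≤ K) (hρ : ρ ≤ 1) {z : ℕ} (hz : 2 ≤ z) (x : Lt) (σ : List Lt) (T : ℕ)
    (hA : Adm z (x :: σ) T) :
    Mt S z (x :: σ) ≤ (2 * K * S.U T) * EV S.toAlph ρ (8 * K ^ 2) z (x :: σ) false false 0 := by
  obtain ⟨hL, hA'⟩ := hA
  have hsc := Loc_sc hL
  have h1 := De_le H hK hρ hz σ x (nT T x) hA' (nT_le hL) hsc.2 (Loc_en hL)
  have h2 := start_le H hK hρ hz hL rfl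
  have h3 := Mt_le (S := S) H.anti z true x σ
  have h4 := Mt_le (S := S) H.anti z false x σ
  have hUT : S.U (2 ^ x.2.2.1) ≤ S.U T := S.U_mono hsc.1.le
  set q := qq S.toAlph ρ (zn z x.2.2.1) (x.2.2.1 - 2) x.1 x.2.1 x.2.2.2.1 with hq
  have e2 := ss_mul S.toAlph ρ (zn z x.2.2.1) (x.2.2.1 - 2) x.1 x.2.1 x.2.2.2.1
  rw [← hq] at e2
  set s2 := ss S.toAlph ρ (zn z x.2.2.1) (x.2.2.1 - 2) x.1 x.2.1 x.2.2.2.1 with hs2
  set s0 := ss S.toAlph ρ (zn z x.2.2.1) (x.2.2.1 - 2) false false 0 with hs0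
  have e0 : s0 * s0 = (S.U (zn z x.2.2.1))⁻¹ := by
    rw [hs0, ss_mul]
    simp [qq]
  set E := EV S.toAlph ρ (8 * K ^ 2) z σ x.2.1 x.1 x.2.2.2.2 with hE
  have hpk : 2 ^ (x.2.2.1 - z) ≤ 2 ^ x.2.2.1 := Nat.pow_le_pow_right (by norm_num) (by omega)
  have hr : zn z x.2.2.1 + 1 = 2 ^ (x.2.2.1 - z) := zn_succ z _
  have hone : (1 : ℝ≥0∞) ≤ S.U T * (s0 * s0) := by
    rw [e0]
    calc (1 : ℝ≥0∞) = S.U (zn z x.2.2.1) * (S.U (zn z x.2.2.1))⁻¹ :=
          (ENNReal.mul_inv_cancel (S.U_ne_zero _) (S.U_ne_top _)).symm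
      _ ≤ _ := mul_le_mul' (S.U_mono (by have := hsc.1; omega)) le_rfl
  have hC1 : (1 : ℝ≥0∞) ≤ 8 * K ^ 2 := by
    calc (1 : ℝ≥0∞) = 1 * 1 ^ 2 := by norm_num
      _ ≤ 8 * K ^ 2 := mul_le_mul' (by norm_num) (pow_le_pow_left' hK 2)
  apply le_of_sq
  have hEV : EV S.toAlph ρ (8 * K ^ 2) z (x :: σ) false false 0 = mid S.toAlph z x * ((8 * K ^ 2) * (s0 * s2)) * E := rfl
  rw [hEV]
  calc Mt S z (x :: σ) * Mt S z (x :: σ)
      ≤ (mid S.toAlph z x * ((∑' P, WW S.toAlph (zn z x.2.2.1) (x.2.2.1 - 2) (stK true x) P) *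
          De S z true σ (WW S.toAlph (zn z (hd z σ)) (x.2.2.1 - 2) (enK true x)))) *
        (mid S.toAlph z x * ((∑' P, WW S.toAlph (zn z x.2.2.1) (x.2.2.1 - 2) (stK false x) P) *
          De S z false σ (WW S.toAlph (zn z (hd z σ)) (x.2.2.1 - 2) (enK false x)))) := mul_le_mul' h3 h4
    _ = (mid S.toAlph z x * mid S.toAlph z x) *
        (((∑' P, WW S.toAlph (zn z x.2.2.1) (x.2.2.1 - 2) (stK true x) P) *
          (∑' P, WW S.toAlph (zn z x.2.2.1) (x.2.2.1 - 2) (stK false x) P)) *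
        (De S z true σ (WW S.toAlph (zn z (hd z σ)) (x.2.2.1 - 2) (enK true x)) *
          De S z false σ (WW S.toAlph (zn z (hd z σ)) (x.2.2.1 - 2) (enK false x)))) := by ring
    _ ≤ (mid S.toAlph z x * mid S.toAlph z x) * (((4 * K ^ 2 * S.U (2 ^ x.2.2.1)) * q) * (E * E)) :=
        mul_le_mul' le_rfl (mul_le_mul' h2 h1)
    _ ≤ (mid S.toAlph z x * mid S.toAlph z x) * (((4 * K ^ 2 * S.U T) * (s2 * s2)) * (E * E)) := by
        rw [e2]
        exact mul_le_mul' le_rfl (mul_le_mul' (mul_le_mul' (mul_le_mul' le_rfl hUT) le_rfl) le_rfl)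
    _ = ((mid S.toAlph z x * mid S.toAlph z x) * (((4 * K ^ 2 * S.U T) * (s2 * s2)) * (E * E))) * (1 * (1 * 1)) := by
        ring
    _ ≤ ((mid S.toAlph z x * mid S.toAlph z x) * (((4 * K ^ 2 * S.U T) * (s2 * s2)) * (E * E))) *
        ((S.U T * (s0 * s0)) * ((8 * K ^ 2) * (8 * K ^ 2))) :=
        mul_le_mul' le_rfl (mul_le_mul' hone (mul_le_mul' hC1 hC1))
    _ = _ := by ring

end PC

end Pool.Agent.HEP
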